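import Pool.Agent.H.MP_4f19f9_lc.SD.Inst
import Pool.Agent.SC.Rate

/-!
# Codes of products and powers
-/

namespace Pool.Agent.SD

open SimpleGraph Pool.Agent.SC

/-- Equal or adjacent vertices of a coded graph. -/
def ea (c : Code) (a b : ℕ) : Prop := a = b ∨ (a, b) ∈ c.2 ∨ (b, a) ∈ c.2

/-- Code of the strong product. -/
noncomputable def mulc (c d : Code) : Code :=
  mkc (c.1 * d.1) (fun x y => ea c (x / d.1) (y / d.1) ∧ ea d (x % d.1) (y % d.1))

/-- Code of the graph with one vertex. -/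
def onec : Code := (1, [])

/-- Code of the strong power. -/
noncomputable def pw (c : Code) (n : ℕ) : Code := Nat.rec onec (fun _ x => mulc x c) n

/-- Class of a coded graph. -/
def nm (c : Code) : GC := cl (gr c)

theorem Comp1_ea {c : Code} {a b : Fin c.1} :
    (a = b ∨ (gr c).Adj a b) ↔ ea c (a : ℕ) (b : ℕ) := by
  rw [gr_adj]
  unfold ea
  constructor
  · rintro (h | ⟨_, h⟩)
    · exact Or.inl (congrArg Fin.val h)
    · exact Or.inr h
  · rintro (h | h)
    · exact Or.inl (Fin.ext h)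
    · by_cases hab : a = b
      · exact Or.inl hab
      · exact Or.inr ⟨hab, h⟩

theorem Comp1_ea_symm {c : Code} {a b : ℕ} (h : ea c a b) : ea c b a := by
  unfold ea at h ⊢
  rcases h with h | h | h
  · exact Or.inl h.symm
  · exact Or.inr (Or.inr h)
  · exact Or.inr (Or.inl h)

theorem Comp1_ea_self (c : Code) (a : ℕ) : ea c a a := Or.inl rfl

theorem Comp1_ea_mulc {c d : Code} (x y : Fin c.1 × Fin d.1) :
    ea (mulc c d) ((x.2 : ℕ) + d.1 * (x.1 : ℕ)) ((y.2 : ℕ) + d.1 * (y.1 : ℕ)) ↔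
      ea c (x.1 : ℕ) (y.1 : ℕ) ∧ ea d (x.2 : ℕ) (y.2 : ℕ) := by
  have hd : 0 < d.1 := Fin.pos x.2
  have hlt : ∀ z : Fin c.1 × Fin d.1, (z.2 : ℕ) + d.1 * (z.1 : ℕ) < c.1 * d.1 := by
    intro z
    have h := (finProdFinEquiv z).2
    rwa [finProdFinEquiv_apply_val] at h
  have hdiv : ∀ z : Fin c.1 × Fin d.1, ((z.2 : ℕ) + d.1 * (z.1 : ℕ)) / d.1 = z.1 := by
    intro z
    rw [Nat.add_mul_div_left _ _ hd, Nat.div_eq_of_lt z.2.2, zero_add]
  have hmod : ∀ z : Fin c.1 × Fin d.1, ((z.2 : ℕ) + d.1 * (z.1 : ℕ)) % d.1 = z.2 := by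
    intro z
    rw [Nat.add_mul_mod_self_left, Nat.mod_eq_of_lt z.2.2]
  have key : ∀ a b : ℕ, (a, b) ∈ (mulc c d).2 ↔ a < c.1 * d.1 ∧ b < c.1 * d.1 ∧
      (ea c (a / d.1) (b / d.1) ∧ ea d (a % d.1) (b % d.1)) := fun a b => mem_mkc
  rw [ea, key, key, hdiv, hdiv, hmod, hmod]
  constructor
  · rintro (h | ⟨_, _, h⟩ | ⟨_, _, h⟩)
    · have h1 := hdiv x
      have h2 := hmod x
      rw [h, hdiv] at h1
      rw [h, hmod] at h2
      rw [h1, h2]
      exact ⟨Comp1_ea_self _ _, Comp1_ea_self _ _⟩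
    · exact h
    · exact ⟨Comp1_ea_symm h.1, Comp1_ea_symm h.2⟩
  · intro h
    exact Or.inr (Or.inl ⟨hlt x, hlt y, h⟩)

/-- Use finProdFinEquiv : Fin m × Fin n ≃ Fin (m * n), with value x.2 + n * x.1. -/
theorem gr_mulc (c d : Code) : Nonempty (gr (mulc c d) ≃g sprod (gr c) (gr d)) := by
  have h : sprod (gr c) (gr d) ≃g gr (mulc c d) := by
    refine isoOf (H := gr (mulc c d)) finProdFinEquiv (fun x y => ?_)
    have h1 := Comp1_ea (c := mulc c d) (a := finProdFinEquiv x) (b := finProdFinEquiv y)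
    have h2 : ∀ z : Fin c.1 × Fin d.1, ((finProdFinEquiv z : Fin (c.1 * d.1)) : ℕ) =
        (z.2 : ℕ) + d.1 * (z.1 : ℕ) := fun z => finProdFinEquiv_apply_val z
    have h3 : ea (mulc c d) ((finProdFinEquiv x : Fin (c.1 * d.1)) : ℕ)
        ((finProdFinEquiv y : Fin (c.1 * d.1)) : ℕ) ↔
        ea c (x.1 : ℕ) (y.1 : ℕ) ∧ ea d (x.2 : ℕ) (y.2 : ℕ) := by
      rw [h2, h2]
      exact Comp1_ea_mulc x y
    exact (h1.trans h3).trans ((and_congr Comp1_ea.symm Comp1_ea.symm).trans sprod_ea.symm)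
  exact ⟨h.symm⟩

theorem nm_mulc (c d : Code) : nm (mulc c d) = nm c * nm d := by
  unfold nm
  rw [cl_mul, cl_eq]
  exact gr_mulc c d

theorem Comp1_gr_nil (n : ℕ) : gr (n, []) = (⊥ : SimpleGraph (Fin n)) := by
  ext a b
  rw [gr_adj]
  simp

theorem nm_onec : nm onec = 1 := by
  unfold nm onec
  rw [Comp1_gr_nil, cl_one, cl_eq]
  exact ⟨{ toEquiv := Equiv.ofUnique (Fin 1) PUnit
           map_rel_iff' := by intro a b; simp }⟩

theorem Comp1_pw_zero (c : Code) : pw c 0 = onec := rfl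

theorem Comp1_pw_succ (c : Code) (n : ℕ) : pw c (n + 1) = mulc (pw c n) c := rfl

theorem nm_pw (c : Code) (n : ℕ) : nm (pw c n) = nm c ^ n := by
  induction n with
  | zero => rw [Comp1_pw_zero, nm_onec, pow_zero]
  | succ n ih => rw [Comp1_pw_succ, nm_mulc, ih, pow_succ]

theorem nm_edgeless (n : ℕ) : nm (n, []) = (n : GC) := by
  unfold nm
  rw [Comp1_gr_nil, cl_nat]

theorem nm_surj (x : GC) : ∃ c : Code, nm c = x := by
  refine cl_ind (P := fun x => ∃ c : Code, nm c = x) ?_ x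
  intro V _ G
  obtain ⟨n, ⟨e⟩⟩ := Finite.exists_equiv_fin V
  obtain ⟨L, -, hL⟩ := exists_gr (G.comap e.symm)
  refine ⟨(n, L), ?_⟩
  unfold nm
  rw [hL, cl_eq]
  exact ⟨{ toEquiv := e.symm
           map_rel_iff' := by intro a b; exact Iff.rfl }⟩

theorem nm_eq_mul {c d e : Code} :
    nm e = nm c * nm d ↔ Nonempty (gr e ≃g sprod (gr c) (gr d)) := by
  unfold nm
  rw [cl_mul, cl_eq]

theorem nm_eq_add {c d e : Code} : nm e = nm c + nm d ↔ Nonempty (gr e ≃g gr c ⊕g gr d) := by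
  unfold nm
  rw [cl_add, cl_eq]

theorem gvv_nm (c : Code) : gvv (nm c) = c.1 := by
  unfold nm
  rw [gvv_cl, Nat.card_eq_fintype_card, Fintype.card_fin]

theorem gT_nm (c : Code) : gT (nm c) = theta (gr c) := gT_cl (gr c)

theorem gi_nm (c : Code) : gi (nm c) = (gr c).indepNum := gi_cl (gr c)

theorem mulc_fst (c d : Code) : (mulc c d).1 = c.1 * d.1 := rfl

theorem pw_fst (c : Code) (n : ℕ) : (pw c n).1 = c.1 ^ n := by
  induction n with
  | zero => rw [Comp1_pw_zero, pow_zero]; rfl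
  | succ n ih => rw [Comp1_pw_succ, mulc_fst, ih, pow_succ]

variable {α : Type*} [Primcodable α]

theorem pp_ea {fc : α → Code} {fa fb : α → ℕ} (hc : Primrec fc) (ha : Primrec fa)
    (hb : Primrec fb) : PrimrecPred (fun x => ea (fc x) (fa x) (fb x)) := by
  refine PrimrecPred.or (pp_eq ha hb) (PrimrecPred.or ?_ ?_)
  · exact pp_mem (Primrec.pair ha hb) (Primrec.snd.comp hc)
  · exact pp_mem (Primrec.pair hb ha) (Primrec.snd.comp hc)

/-- With pr_mkc. -/
theorem pr_mulc {fc fd : α → Code} (hc : Primrec fc) (hd : Primrec fd) :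
    Primrec (fun a => mulc (fc a) (fd a)) := by
  unfold mulc
  refine pr_mkc (A := fun a x y => ea (fc a) (x / (fd a).1) (y / (fd a).1) ∧
    ea (fd a) (x % (fd a).1) (y % (fd a).1))
    (Primrec.nat_mul.comp (Primrec.fst.comp hc) (Primrec.fst.comp hd)) ?_
  have hc' : Primrec (fun p : α × (ℕ × ℕ) => fc p.1) := hc.comp Primrec.fst
  have hd' : Primrec (fun p : α × (ℕ × ℕ) => fd p.1) := hd.comp Primrec.fst
  have hd1 : Primrec (fun p : α × (ℕ × ℕ) => (fd p.1).1) := Primrec.fst.comp hd'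
  have ha : Primrec (fun p : α × (ℕ × ℕ) => p.2.1) := Primrec.fst.comp Primrec.snd
  have hb : Primrec (fun p : α × (ℕ × ℕ) => p.2.2) := Primrec.snd.comp Primrec.snd
  exact PrimrecPred.and
    (pp_ea hc' (Primrec.nat_div.comp ha hd1) (Primrec.nat_div.comp hb hd1))
    (pp_ea hd' (Primrec.nat_mod.comp ha hd1) (Primrec.nat_mod.comp hb hd1))

theorem pr_pw {fc : α → Code} {fn : α → ℕ} (hc : Primrec fc) (hn : Primrec fn) :
    Primrec (fun a => pw (fc a) (fn a)) := by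
  unfold pw
  exact Primrec.nat_rec' (f := fn) (g := fun _ => onec)
    (h := fun a (q : ℕ × Code) => mulc q.2 (fc a)) hn (Primrec.const onec)
    (pr_mulc (Primrec.snd.comp Primrec.snd) (hc.comp Primrec.fst))

end Pool.Agent.SD
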