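import Mathlib

/-!
# The abstract setting

M is a commutative semiring (of classes of graphs: + disjoint union, * strong product), v the
number of vertices, T the capacity.
-/

namespace Pool.Agent.SD

/-- Capacity data on a commutative semiring. -/
structure Cap (M : Type*) [CommSemiring M] where
  v : M → ℕ
  T : M → ℝ
  le : M → M → Prop
  v_mul : ∀ x y, v (x * y) = v x * v y
  v_nat : ∀ n : ℕ, v (n : M) = n
  v_zero : ∀ x, v x = 0 → x = 0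
  T_nonneg : ∀ x, 0 ≤ T x
  T_pos : ∀ x, 1 ≤ v x → 1 ≤ T x
  T_mul : ∀ x y, T x * T y ≤ T (x * y)
  T_pow : ∀ x n, T (x ^ n) = T x ^ n
  T_lip : ∀ x y, T (x * y) ≤ T x * v y
  T_mono : ∀ x y z, le x y → T (z * x) ≤ T (z * y)
  T_nat : ∀ n : ℕ, (n : ℝ) ≤ T (n : M)
  le_add : ∀ x y, le x (x + y)
  T_sum : ∀ (x g h : M) (c a b : ℝ), 0 ≤ c → 0 ≤ a → 0 ≤ b →
    (∀ n k l : ℕ, 1 ≤ n → k + l = n → T (x ^ n * (g ^ k * h ^ l)) ≤ c ^ n * (a ^ k * b ^ l)) →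
    T (x * (g + h)) ≤ c * (a + b)

variable {M : Type*} [CommSemiring M]

/-- A run of the algorithm: base points X s, stages s, precisions p s and radii 1 / q s. -/
structure Run (C : Cap M) where
  X : ℕ → M
  Z : ℕ → M
  m : ℕ → ℕ
  p : ℕ → ℕ
  q : ℕ → ℕ
  vX0 : 1 ≤ C.v (X 0)
  vZ : ∀ s, 1 ≤ C.v (Z s)
  hX : ∀ s, X (s + 1) = X s ^ m s * Z s
  hp : ∀ s, s + 1 ≤ p s
  hpq : ∀ s, p s ≤ q (s + 1)
  hq : ∀ s, 2 * q s ≤ q (s + 1)
  hq0 : 1 ≤ q 0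
  hm : ∀ s, 2 * q s * p s ≤ m s
  hZ : ∀ s, C.v (Z s) ^ (2 * q s) ≤ 2 ^ m s

/-- At stage s the direction g has been treated: left and right secants are close. -/
def Run.Visit {C : Cap M} (r : Run C) (s : ℕ) (g : M) : Prop :=
  1 ≤ C.v g ∧ ∃ B : M, 1 ≤ C.v B ∧ r.X (s + 1) = B * g ∧
    C.T (B * g) ^ (2 * r.p s) ≤ 2 * (C.T B * C.T (B * g * g)) ^ r.p s

end Pool.Agent.SD
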