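import Pool.Agent.H.MP_4f19f9_lc.SD.Cap

/-!
# Secants of the capacity
-/

namespace Pool.Agent.SD

open Filter Topology

theorem Co_root_le {x y a : ℝ} {p : ℕ} (hp : 1 ≤ p) (hy : 0 ≤ y) (ha : 0 ≤ a)
    (h : x ^ p ≤ (1 + a) * y ^ p) : x ≤ (1 + a / p) * y := by
  have hp0 : (0 : ℝ) < p := by exact_mod_cast hp
  have h1 : 1 + a ≤ (1 + a / p) ^ p := by
    have h2 := one_add_mul_le_pow (a := a / p) (by have : 0 ≤ a / p := by positivity
                                                   linarith) p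
    have h3 : (p : ℝ) * (a / p) = a := by field_simp
    rw [h3] at h2
    exact h2
  have h4 : x ^ p ≤ ((1 + a / p) * y) ^ p := by
    rw [mul_pow]
    exact le_trans h (mul_le_mul_of_nonneg_right h1 (by positivity))
  exact le_of_pow_le_pow_left₀ (by omega) (by positivity) h4

theorem Co_pow_le_two {x : ℝ} {p q : ℕ} (hx : 0 ≤ x) (h : x ^ q ≤ 2) (hpq : p ≤ q) :
    x ^ p ≤ 2 := by
  rcases le_or_gt x 1 with h1 | h1
  · exact le_trans (pow_le_one₀ hx h1) (by norm_num)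
  · exact le_trans (pow_le_pow_right₀ h1.le hpq) h

theorem Co_ratio {x y : ℝ} {w K q p : ℕ} (hx : 0 ≤ x) (hy : 0 < y) (hK : 1 ≤ K)
    (h : x ^ K ≤ y ^ K * w) (hv : w ^ q ≤ 2 ^ K) (hpq : p ≤ q) : x ^ p ≤ 2 * y ^ p := by
  have h1 : (x / y) ^ K ≤ w := by
    rw [div_pow, div_le_iff₀ (by positivity), mul_comm]
    exact h
  have h2 : ((x / y) ^ q) ^ K ≤ 2 ^ K := by
    calc ((x / y) ^ q) ^ K = ((x / y) ^ K) ^ q := by rw [← pow_mul, ← pow_mul, mul_comm]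
      _ ≤ (w : ℝ) ^ q := pow_le_pow_left₀ (by positivity) h1 q
      _ ≤ 2 ^ K := by exact_mod_cast hv
  have h3 : (x / y) ^ q ≤ 2 := le_of_pow_le_pow_left₀ (by omega) (by norm_num) h2
  have h4 := Co_pow_le_two (by positivity) h3 hpq
  rwa [div_pow, div_le_iff₀ (by positivity)] at h4

variable {M : Type*} [CommSemiring M]

namespace Cap

variable (C : Cap M)

theorem v_one : C.v 1 = 1 := by simpa using C.v_nat 1

theorem v_pow (x : M) (n : ℕ) : C.v (x ^ n) = C.v x ^ n := by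
  induction n with
  | zero => simp [C.v_one]
  | succ n ih => rw [pow_succ, C.v_mul, ih, pow_succ]

theorem v_pos_mul {x y : M} (hx : 1 ≤ C.v x) (hy : 1 ≤ C.v y) : 1 ≤ C.v (x * y) := by
  rw [C.v_mul]
  exact Nat.mul_pos hx hy

theorem v_pos_pow {x : M} (hx : 1 ≤ C.v x) (n : ℕ) : 1 ≤ C.v (x ^ n) := by
  rw [C.v_pow]
  exact Nat.one_le_pow _ _ hx

theorem T_pos' {x : M} (hx : 1 ≤ C.v x) : 0 < C.T x := lt_of_lt_of_le one_pos (C.T_pos x hx)

/-- Secant quotient. -/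
noncomputable def rho (X g : M) : ℝ := C.T (X * g) / C.T X

theorem rho_nonneg (X g : M) : 0 ≤ C.rho X g := div_nonneg (C.T_nonneg _) (C.T_nonneg _)

theorem rho_le {X : M} (hX : 1 ≤ C.v X) (g : M) : C.rho X g ≤ C.v g := by
  unfold rho
  rw [div_le_iff₀ (C.T_pos' hX), mul_comm (C.v g : ℝ)]
  exact C.T_lip X g

theorem T_le_rho {X : M} (hX : 1 ≤ C.v X) (g : M) : C.T g ≤ C.rho X g := by
  unfold rho
  rw [le_div_iff₀ (C.T_pos' hX), mul_comm]
  exact C.T_mul X g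

theorem rho_pos {X g : M} (hX : 1 ≤ C.v X) (hg : 1 ≤ C.v g) : 0 < C.rho X g :=
  div_pos (C.T_pos' (C.v_pos_mul hX hg)) (C.T_pos' hX)

/-- Upper secant bound. -/
theorem sec_up {B g Z A' : M} {K : ℕ} (hB : 1 ≤ C.v B) (hg : 1 ≤ C.v g) (hZ : 1 ≤ C.v Z)
    (hA' : A' = (B * g) ^ K * Z) :
    (C.rho A' g * C.T B) ^ K ≤ C.T (B * g) ^ K * C.v Z := by
  have hA : 1 ≤ C.v A' := by
    rw [hA']
    exact C.v_pos_mul (C.v_pos_pow (C.v_pos_mul hB hg) K) hZ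
  have hTA := C.T_pos' hA
  have e : A' ^ (K + 1) = (A' * g) ^ K * (B ^ K * Z) := by
    calc A' ^ (K + 1) = A' ^ K * A' := pow_succ _ _
      _ = A' ^ K * ((B * g) ^ K * Z) := congrArg (fun t => A' ^ K * t) hA'
      _ = (A' * g) ^ K * (B ^ K * Z) := by ring
  have h1 : C.T (A' * g) ^ K * C.T B ^ K ≤ C.T A' ^ (K + 1) := by
    have h3 : C.T (B ^ K) ≤ C.T (B ^ K * Z) := by
      calc C.T (B ^ K) = C.T (B ^ K) * 1 := (mul_one _).symm
        _ ≤ C.T (B ^ K) * C.T Z := mul_le_mul_of_nonneg_left (C.T_pos Z hZ) (C.T_nonneg _)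
        _ ≤ C.T (B ^ K * Z) := C.T_mul _ _
    calc C.T (A' * g) ^ K * C.T B ^ K = C.T ((A' * g) ^ K) * C.T (B ^ K) := by
          rw [C.T_pow, C.T_pow]
      _ ≤ C.T ((A' * g) ^ K) * C.T (B ^ K * Z) := mul_le_mul_of_nonneg_left h3 (C.T_nonneg _)
      _ ≤ C.T ((A' * g) ^ K * (B ^ K * Z)) := C.T_mul _ _
      _ = C.T A' ^ (K + 1) := by rw [← e, C.T_pow]
  have h2 : C.T A' ≤ C.T (B * g) ^ K * C.v Z := by
    calc C.T A' = C.T ((B * g) ^ K * Z) := congrArg C.T hA'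
      _ ≤ C.T ((B * g) ^ K) * C.v Z := C.T_lip _ _
      _ = C.T (B * g) ^ K * C.v Z := by rw [C.T_pow]
  unfold rho
  rw [mul_pow, div_pow, div_mul_eq_mul_div, div_le_iff₀ (by positivity)]
  calc C.T (A' * g) ^ K * C.T B ^ K ≤ C.T A' ^ (K + 1) := h1
    _ = C.T A' * C.T A' ^ K := by ring
    _ ≤ C.T (B * g) ^ K * C.v Z * C.T A' ^ K := mul_le_mul_of_nonneg_right h2 (by positivity)

/-- Lower secant bound. -/
theorem sec_down {A g Z A' : M} {K : ℕ} (hK : 1 ≤ K) (hA : 1 ≤ C.v A) (hZ : 1 ≤ C.v Z)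
    (hA' : A' = A ^ K * Z) : C.rho A g ^ K ≤ C.rho A' g ^ K * C.v Z := by
  obtain ⟨k, rfl⟩ : ∃ k, K = k + 1 := ⟨K - 1, by omega⟩
  have hv : 1 ≤ C.v A' := by
    rw [hA']
    exact C.v_pos_mul (C.v_pos_pow hA _) hZ
  have hTA' := C.T_pos' hv
  have hTA := C.T_pos' hA
  have e : (A' * g) ^ (k + 1) = A' ^ k * ((A * g) ^ (k + 1) * Z) := by
    calc (A' * g) ^ (k + 1) = A' ^ k * (A' * g ^ (k + 1)) := by ring
      _ = A' ^ k * ((A ^ (k + 1) * Z) * g ^ (k + 1)) := by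
          exact congrArg (fun t => A' ^ k * (t * g ^ (k + 1))) hA'
      _ = A' ^ k * ((A * g) ^ (k + 1) * Z) := by ring
  have h1 : C.T A' ^ k * C.T (A * g) ^ (k + 1) ≤ C.T (A' * g) ^ (k + 1) := by
    have h3 : C.T ((A * g) ^ (k + 1)) ≤ C.T ((A * g) ^ (k + 1) * Z) := by
      calc C.T ((A * g) ^ (k + 1)) = C.T ((A * g) ^ (k + 1)) * 1 := (mul_one _).symm
        _ ≤ C.T ((A * g) ^ (k + 1)) * C.T Z :=
            mul_le_mul_of_nonneg_left (C.T_pos Z hZ) (C.T_nonneg _)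
        _ ≤ C.T ((A * g) ^ (k + 1) * Z) := C.T_mul _ _
    calc C.T A' ^ k * C.T (A * g) ^ (k + 1) = C.T (A' ^ k) * C.T ((A * g) ^ (k + 1)) := by
          rw [C.T_pow, C.T_pow]
      _ ≤ C.T (A' ^ k) * C.T ((A * g) ^ (k + 1) * Z) :=
          mul_le_mul_of_nonneg_left h3 (C.T_nonneg _)
      _ ≤ C.T (A' ^ k * ((A * g) ^ (k + 1) * Z)) := C.T_mul _ _
      _ = C.T (A' * g) ^ (k + 1) := by rw [← e, C.T_pow]
  have h2 : C.T A' ≤ C.T A ^ (k + 1) * C.v Z := by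
    calc C.T A' = C.T (A ^ (k + 1) * Z) := congrArg C.T hA'
      _ ≤ C.T (A ^ (k + 1)) * C.v Z := C.T_lip _ _
      _ = C.T A ^ (k + 1) * C.v Z := by rw [C.T_pow]
  unfold rho
  rw [div_pow, div_pow, div_mul_eq_mul_div, div_le_div_iff₀ (by positivity) (by positivity)]
  calc C.T (A * g) ^ (k + 1) * C.T A' ^ (k + 1)
      = (C.T A' ^ k * C.T (A * g) ^ (k + 1)) * C.T A' := by ring
    _ ≤ C.T (A' * g) ^ (k + 1) * C.T A' := mul_le_mul_of_nonneg_right h1 hTA'.le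
    _ ≤ C.T (A' * g) ^ (k + 1) * (C.T A ^ (k + 1) * C.v Z) :=
        mul_le_mul_of_nonneg_left h2 (pow_nonneg (C.T_nonneg _) _)
    _ = C.T (A' * g) ^ (k + 1) * C.v Z * C.T A ^ (k + 1) := by ring

/-- Balls. -/
def Ball (X : M) (q : ℕ) (A : M) : Prop :=
  ∃ (K : ℕ) (Z : M), 1 ≤ K ∧ 1 ≤ C.v Z ∧ A = X ^ K * Z ∧ C.v Z ^ q ≤ 2 ^ K

theorem ball_self (X : M) (q : ℕ) : C.Ball X q X :=
  ⟨1, 1, le_rfl, by rw [C.v_one], by ring, by rw [C.v_one]; simp⟩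

theorem ball_pos {X A : M} {q : ℕ} (hX : 1 ≤ C.v X) (h : C.Ball X q A) : 1 ≤ C.v A := by
  obtain ⟨K, Z, -, hZ, rfl, -⟩ := h
  exact C.v_pos_mul (C.v_pos_pow hX K) hZ

theorem ball_up {B g A' : M} {p q : ℕ} (hB : 1 ≤ C.v B) (hg : 1 ≤ C.v g)
    (h : C.Ball (B * g) q A') (hpq : p ≤ q) :
    (C.rho A' g * C.T B) ^ p ≤ 2 * C.T (B * g) ^ p := by
  obtain ⟨K, Z, hK, hZ, hA', hv⟩ := h
  exact Co_ratio (mul_nonneg (C.rho_nonneg _ _) (C.T_nonneg _)) (C.T_pos' (C.v_pos_mul hB hg)) hK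
    (C.sec_up hB hg hZ hA') hv hpq

theorem ball_down {A g A' : M} {p q : ℕ} (hA : 1 ≤ C.v A) (hg : 1 ≤ C.v g)
    (h : C.Ball A q A') (hpq : p ≤ q) : C.rho A g ^ p ≤ 2 * C.rho A' g ^ p := by
  have hA'v := C.ball_pos hA h
  obtain ⟨K, Z, hK, hZ, hA', hv⟩ := h
  exact Co_ratio (C.rho_nonneg _ _) (C.rho_pos hA'v hg) hK (C.sec_down hK hA hZ hA') hv hpq

/-- Two-sided bound in the ball around a treated point. -/
theorem ball_est {B g A' : M} {p q : ℕ} (hp : 1 ≤ p) (hB : 1 ≤ C.v B) (hg : 1 ≤ C.v g)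
    (ht : C.T (B * g) ^ (2 * p) ≤ 2 * (C.T B * C.T (B * g * g)) ^ p)
    (h : C.Ball (B * g) q A') (hpq : p ≤ q) :
    |C.rho A' g - C.rho (B * g) g| ≤ 3 * C.v g / p := by
  have hBg := C.v_pos_mul hB hg
  have hA'v := C.ball_pos hBg h
  have h1 := C.ball_down hBg hg h hpq
  have h2 := C.ball_up hB hg h hpq
  have hTB := C.T_pos' hB
  have hTA := C.T_pos' hBg
  have h3 : C.rho A' g ^ p ≤ (1 + 3) * C.rho (B * g) g ^ p := by
    have h4 : C.rho A' g ^ p * C.T (B * g) ^ p ≤ (1 + 3) * C.T (B * g * g) ^ p := by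
      have h5 : (C.rho A' g ^ p * C.T (B * g) ^ p) * C.T B ^ p ≤
          ((1 + 3) * C.T (B * g * g) ^ p) * C.T B ^ p := by
        calc (C.rho A' g ^ p * C.T (B * g) ^ p) * C.T B ^ p
            = (C.rho A' g * C.T B) ^ p * C.T (B * g) ^ p := by rw [mul_pow]; ring
          _ ≤ (2 * C.T (B * g) ^ p) * C.T (B * g) ^ p :=
              mul_le_mul_of_nonneg_right h2 (by positivity)
          _ = 2 * C.T (B * g) ^ (2 * p) := by ring
          _ ≤ 2 * (2 * (C.T B * C.T (B * g * g)) ^ p) :=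
              mul_le_mul_of_nonneg_left ht (by norm_num)
          _ = ((1 + 3) * C.T (B * g * g) ^ p) * C.T B ^ p := by rw [mul_pow]; ring
      exact le_of_mul_le_mul_right h5 (by positivity)
    unfold rho at h4 ⊢
    rw [div_pow (C.T (B * g * g)), mul_div_assoc', le_div_iff₀ (by positivity)]
    exact h4
  have h1' : C.rho (B * g) g ^ p ≤ (1 + 1) * C.rho A' g ^ p := by
    refine le_trans h1 (le_of_eq (by ring))
  have k1 := Co_root_le hp (C.rho_nonneg _ _) (by norm_num) h3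
  have k2 := Co_root_le hp (C.rho_nonneg _ _) (by norm_num) h1'
  have hp0 : (0 : ℝ) < p := by exact_mod_cast hp
  have b1 : 3 / (p : ℝ) * C.rho (B * g) g ≤ 3 / p * C.v g :=
    mul_le_mul_of_nonneg_left (C.rho_le hBg g) (by positivity)
  have b2 : 1 / (p : ℝ) * C.rho A' g ≤ 3 / p * C.v g := by
    calc 1 / (p : ℝ) * C.rho A' g ≤ 1 / p * C.v g :=
          mul_le_mul_of_nonneg_left (C.rho_le hA'v g) (by positivity)
      _ ≤ 3 / p * C.v g := by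
          apply mul_le_mul_of_nonneg_right _ (Nat.cast_nonneg _)
          exact div_le_div_of_nonneg_right (by norm_num) hp0.le
  have e : 3 * (C.v g : ℝ) / p = 3 / p * C.v g := by ring
  rw [e, abs_le]
  constructor <;> nlinarith

/-- Nested balls. -/
theorem ball_nest {X W A : M} {m q q1 : ℕ} (hm : 1 ≤ m) (hW : 1 ≤ C.v W)
    (hWq : C.v W ^ (2 * q) ≤ 2 ^ m) (hq : 2 * q ≤ q1) (h : C.Ball (X ^ m * W) q1 A) :
    C.Ball X q A := by
  obtain ⟨K, Z, hK, hZ, rfl, hv⟩ := h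
  refine ⟨m * K, W ^ K * Z, Nat.mul_pos hm hK, C.v_pos_mul (C.v_pos_pow hW K) hZ, by
    rw [mul_pow, pow_mul]; ring, ?_⟩
  have h1 : (C.v (W ^ K * Z) ^ q) ^ 2 ≤ (2 ^ (m * K)) ^ 2 := by
    rw [C.v_mul, C.v_pow]
    calc ((C.v W ^ K * C.v Z) ^ q) ^ 2 = (C.v W ^ (2 * q)) ^ K * C.v Z ^ (2 * q) := by ring
      _ ≤ (2 ^ m) ^ K * C.v Z ^ q1 :=
          Nat.mul_le_mul (Nat.pow_le_pow_left hWq K) (Nat.pow_le_pow_right hZ hq)
      _ ≤ (2 ^ m) ^ K * 2 ^ K := Nat.mul_le_mul_left _ hv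
      _ ≤ (2 ^ m) ^ K * 2 ^ (m * K) :=
          Nat.mul_le_mul_left _ (Nat.pow_le_pow_right (by norm_num) (Nat.le_mul_of_pos_left K hm))
      _ = (2 ^ (m * K)) ^ 2 := by rw [← pow_mul]; ring
  exact (Nat.pow_le_pow_iff_left (by norm_num)).1 h1

/-- Existence of a point where left and right secants are close. -/
theorem exists_gap {X g : M} (hX : 1 ≤ C.v X) (hg : 1 ≤ C.v g) {p : ℕ} (hp : 1 ≤ p) :
    ∃ j < p * C.v g, C.T (X * g ^ (j + 1)) ^ (2 * p) <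
      2 * (C.T (X * g ^ j) * C.T (X * g ^ (j + 2))) ^ p := by
  by_contra hcon
  push Not at hcon
  have hv : ∀ j, 1 ≤ C.v (X * g ^ j) := fun j => C.v_pos_mul hX (C.v_pos_pow hg j)
  have hT : ∀ j, 0 < C.T (X * g ^ j) := fun j => C.T_pos' (hv j)
  -- the powers of the secants drop by a factor two
  have hr : ∀ j, C.rho (X * g ^ j) g = C.T (X * g ^ (j + 1)) / C.T (X * g ^ j) := by
    intro j
    unfold rho
    rw [mul_assoc, ← pow_succ]
  have key : ∀ j, j ≤ p * C.v g → 2 ^ j * C.rho (X * g ^ j) g ^ p ≤ C.rho X g ^ p := by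
    intro j
    induction j with
    | zero => intro _; simp
    | succ j ih =>
      intro hj
      refine le_trans ?_ (ih (by omega))
      have h1 := hcon j (by omega)
      have h2 : 2 * C.rho (X * g ^ (j + 1)) g ^ p ≤ C.rho (X * g ^ j) g ^ p := by
        rw [hr, hr, div_pow, div_pow, mul_div_assoc', div_le_div_iff₀
          (pow_pos (hT _) _) (pow_pos (hT _) _)]
        calc 2 * C.T (X * g ^ (j + 1 + 1)) ^ p * C.T (X * g ^ j) ^ p
            = 2 * (C.T (X * g ^ j) * C.T (X * g ^ (j + 2))) ^ p := by rw [mul_pow]; ring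
          _ ≤ C.T (X * g ^ (j + 1)) ^ (2 * p) := h1
          _ = C.T (X * g ^ (j + 1)) ^ p * C.T (X * g ^ (j + 1)) ^ p := by ring
      calc 2 ^ (j + 1) * C.rho (X * g ^ (j + 1)) g ^ p
          = 2 ^ j * (2 * C.rho (X * g ^ (j + 1)) g ^ p) := by ring
        _ ≤ 2 ^ j * C.rho (X * g ^ j) g ^ p := mul_le_mul_of_nonneg_left h2 (by positivity)
  have h1 := key (p * C.v g) le_rfl
  have h2 : (1 : ℝ) ≤ C.rho (X * g ^ (p * C.v g)) g :=
    le_trans (C.T_pos g hg) (C.T_le_rho (hv _) g)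
  have h3 : (2 : ℝ) ^ (p * C.v g) ≤ (C.v g : ℝ) ^ p := by
    calc (2 : ℝ) ^ (p * C.v g) = 2 ^ (p * C.v g) * 1 := (mul_one _).symm
      _ ≤ 2 ^ (p * C.v g) * C.rho (X * g ^ (p * C.v g)) g ^ p :=
          mul_le_mul_of_nonneg_left (one_le_pow₀ h2) (by positivity)
      _ ≤ C.rho X g ^ p := h1
      _ ≤ (C.v g : ℝ) ^ p := pow_le_pow_left₀ (C.rho_nonneg _ _) (C.rho_le hX g) p
  have h4 : C.v g ^ p < 2 ^ (p * C.v g) := by
    rw [mul_comm, pow_mul]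
    exact Nat.pow_lt_pow_left (Nat.lt_two_pow_self) (by omega)
  have h5 : ((2 ^ (p * C.v g) : ℕ) : ℝ) ≤ ((C.v g ^ p : ℕ) : ℝ) := by
    push_cast
    exact h3
  exact absurd (by exact_mod_cast h5) (not_le.2 h4)

end Cap

end Pool.Agent.SD
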