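import Pool.Agent.SC.Defs

/-!
# Definitions used in the statement

Strong products, the points of the asymptotic spectrum of graphs, submultiplicative upper bounds
and uniformly computable sequences of functions of graphs.
-/

namespace Pool.Agent.SD

open Pool.Agent.SC

variable {V W : Type*}

/-- The strong product of G and H: two distinct pairs are adjacent when in both coordinates their
entries are equal or adjacent. -/
def sprod (G : SimpleGraph V) (H : SimpleGraph W) : SimpleGraph (V × W) where
  Adj x y := x ≠ y ∧ (x.1 = y.1 ∨ G.Adj x.1 y.1) ∧ (x.2 = y.2 ∨ H.Adj x.2 y.2)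
  symm := ⟨fun _ _ h => ⟨h.1.symm, h.2.1.imp Eq.symm (fun e => e.symm),
    h.2.2.imp Eq.symm (fun e => e.symm)⟩⟩
  loopless := ⟨fun _ h => h.1 rfl⟩

/-- There is a cohomomorphism from G to H: a map of the vertices which sends distinct nonadjacent
vertices to distinct nonadjacent vertices. -/
def Coh (G : SimpleGraph V) (H : SimpleGraph W) : Prop :=
  ∃ f : V → W, ∀ x y, Gᶜ.Adj x y → Hᶜ.Adj (f x) (f y)

/-- The function φ of (codes of) finite graphs is a point of the asymptotic spectrum of graphs:
it is additive under disjoint unions, multiplicative under strong products, monotone under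
cohomomorphisms, and its value at the edgeless graph on n vertices is n. -/
structure IsSpectral (φ : Code → ℝ) : Prop where
  edgeless : ∀ n : ℕ, φ (n, []) = n
  sum : ∀ c d e : Code, Nonempty (gr e ≃g gr c ⊕g gr d) → φ e = φ c + φ d
  prod : ∀ c d e : Code, Nonempty (gr e ≃g sprod (gr c) (gr d)) → φ e = φ c * φ d
  mono : ∀ c d : Code, Coh (gr c) (gr d) → φ c ≤ φ d

/-- The function f of (codes of) finite graphs is at least the independence number and is
submultiplicative under strong products. -/
structure IsBound (f : Code → ℝ) : Prop where
  indep : ∀ c : Code, ((gr c).indepNum : ℝ) ≤ f c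
  submul : ∀ c d e : Code, Nonempty (gr e ≃g sprod (gr c) (gr d)) → f e ≤ f c * f d

/-- The sequence Φ of functions of finite graphs is uniformly computable: from i, the code of a
graph and k, a computable function returns the numerator and the denominator (minus one) of a
rational within 2^(-k) of the value of the i-th function. -/
def UniformlyComputable (Φ : ℕ → Code → ℝ) : Prop :=
  ∃ f : ℕ × Code × ℕ → ℕ × ℕ, Computable f ∧ ∀ (i : ℕ) (c : Code) (k : ℕ),
    |((f (i, c, k)).1 : ℝ) / (((f (i, c, k)).2 : ℝ) + 1) - Φ i c| ≤ 1 / 2 ^ k

end Pool.Agent.SD
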