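import Pool.Agent.H.MP_4f19f9_lc.SD.Sp

/-!
# Uniform computability
-/

namespace Pool.Agent.SD

open SimpleGraph Pool.Agent.SC

theorem pr_mul2 : Primrec (fun w : Code × Code => mulc w.1 w.2) :=
  pr_mulc Primrec.fst Primrec.snd

/-- The index with number n. -/
def ix (n : ℕ) : Code × ℕ := (Encodable.decode (α := Code × ℕ) n).getD (onec, 0)

theorem pr_ix : Primrec ix :=
  Primrec.option_getD.comp Primrec.decode (Primrec.const (onec, 0))

theorem ix_encode (c : Code) (k : ℕ) : ix (Encodable.encode (c, k)) = (c, k) := by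
  unfold ix
  rw [Encodable.encodek]
  rfl

/-- The stage used for c and k. -/
def sg (c : Code) (k : ℕ) : ℕ := Nat.pair (Encodable.encode c) (3 * c.1 * 2 ^ (k + 1)) + 1

theorem pr_sg : Primrec (fun y : ℕ × Code × ℕ => sg y.2.1 y.2.2) := by
  unfold sg
  have hc : Primrec (fun y : ℕ × Code × ℕ => y.2.1) := Primrec.fst.comp Primrec.snd
  have hk : Primrec (fun y : ℕ × Code × ℕ => y.2.2) := Primrec.snd.comp Primrec.snd
  have hv : Primrec (fun y : ℕ × Code × ℕ => y.2.1.1) := Primrec.fst.comp hc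
  refine Primrec.succ.comp (Primrec₂.natPair.comp (Primrec.encode.comp hc) ?_)
  exact Primrec.nat_mul.comp (Primrec.nat_mul.comp (Primrec.const 3) hv)
    (pr_pow.comp (Primrec.const 2) (Primrec.succ.comp hk))

/-- The approximating function. -/
noncomputable def apx (J : (Code × Code) × (ℕ × ℕ) → ℕ) (A : Code × ℕ → ℕ) (y : ℕ × Code × ℕ) :
    ℕ × ℕ :=
  (A (mulc (St J (ix y.1) (sg y.2.1 y.2.2)) y.2.1, y.2.2 + y.2.1.1 + 4),
    A (St J (ix y.1) (sg y.2.1 y.2.2), y.2.2 + y.2.1.1 + 4) - 1)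

attribute [local irreducible] mulc pw St ix sg

theorem computable_apx {J : (Code × Code) × (ℕ × ℕ) → ℕ} (hJ : Computable J)
    {A : Code × ℕ → ℕ} (hA : Computable A) : Computable (apx J A) := by
  have hc : Primrec (fun y : ℕ × Code × ℕ => y.2.1) := Primrec.fst.comp Primrec.snd
  have hk : Primrec (fun y : ℕ × Code × ℕ => y.2.2) := Primrec.snd.comp Primrec.snd
  have hv : Primrec (fun y : ℕ × Code × ℕ => y.2.1.1) := Primrec.fst.comp hc
  have hK : Primrec (fun y : ℕ × Code × ℕ => y.2.2 + y.2.1.1 + 4) :=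
    Primrec.nat_add.comp (Primrec.nat_add.comp hk hv) (Primrec.const 4)
  have hi : Primrec (fun y : ℕ × Code × ℕ => ix y.1) := pr_ix.comp Primrec.fst
  have h0 : Computable (fun y : ℕ × Code × ℕ => (ix y.1, sg y.2.1 y.2.2)) :=
    Computable.pair hi.to_comp pr_sg.to_comp
  have hX : Computable (fun y : ℕ × Code × ℕ => St J (ix y.1) (sg y.2.1 y.2.2)) :=
    ((computable_St hJ).comp h0).of_eq (fun y => rfl)
  have hM : Computable (fun y : ℕ × Code × ℕ =>
      mulc (St J (ix y.1) (sg y.2.1 y.2.2)) y.2.1) :=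
    (pr_mul2.to_comp.comp (Computable.pair hX hc.to_comp)).of_eq (fun y => rfl)
  have h1 : Computable (fun y : ℕ × Code × ℕ =>
      A (mulc (St J (ix y.1) (sg y.2.1 y.2.2)) y.2.1, y.2.2 + y.2.1.1 + 4)) :=
    hA.comp (Computable.pair hM hK.to_comp)
  have h2 : Computable (fun y : ℕ × Code × ℕ =>
      A (St J (ix y.1) (sg y.2.1 y.2.2), y.2.2 + y.2.1.1 + 4) - 1) :=
    (Primrec.pred.to_comp.comp (hA.comp (Computable.pair hX hK.to_comp))).of_eq (fun y => rfl)
  exact Computable.pair h1 h2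

/-- **(1) implies (2).** -/
theorem exists_spectral (h : ThetaComputable) :
    ∃ Φ : ℕ → Code → ℝ, UniformlyComputable Φ ∧ (∀ i, IsSpectral (Φ i)) ∧
      ∀ c, theta (gr c) = ⨅ i, Φ i c := by
  obtain ⟨J, hJc, hJ⟩ := exists_J h
  obtain ⟨A, hAc, hA⟩ := int_approx h
  refine ⟨fun n => sp hJ (ix n), ⟨apx J A, computable_apx hJc hAc, fun i c k => ?_⟩,
    fun n => sp_spectral hJ (ix n), fun c => ?_⟩
  · have h1 := sp_approx hJ hA (ix i) c k
    unfold apx sg
    exact h1
  · apply le_antisymm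
    · exact le_ciInf (fun n => theta_le_sp hJ (ix n) c)
    · apply le_of_forall_pos_le_add
      intro e he
      obtain ⟨k, hk⟩ := exists_pow_lt_of_lt_one he (show (1 / 2 : ℝ) < 1 by norm_num)
      have hbdd : BddBelow (Set.range (fun n => sp hJ (ix n) c)) :=
        ⟨theta (gr c), by rintro _ ⟨n, rfl⟩; exact theta_le_sp hJ (ix n) c⟩
      refine le_trans (ciInf_le hbdd (Encodable.encode (c, k))) ?_
      rw [ix_encode]
      have h2 := sp_le hJ c k
      rw [div_pow, one_pow] at hk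
      linarith

end Pool.Agent.SD
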