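import Pool.Agent.H.MP_4f19f9_lc.SD.Ring

/-!
# Capacity data on the semiring of graphs
-/

namespace Pool.Agent.SD

open SimpleGraph Pool.Agent.SC

/-- Independence number of a class. -/
noncomputable def gi : GC → ℕ :=
  Quotient.lift (fun a => a.G.indepNum) (by
    rintro a b ⟨e⟩
    have := a.fin
    have := b.fin
    exact indepNum_congr e)

/-- Number of vertices of a class. -/
noncomputable def gvv : GC → ℕ :=
  Quotient.lift (fun a => Nat.card a.V) (by
    rintro a b ⟨e⟩
    exact Nat.card_congr e.toEquiv)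

/-- Capacity of a class. -/
noncomputable def gT : GC → ℝ :=
  Quotient.lift (fun a => theta a.G) (by
    rintro a b ⟨e⟩
    have := a.fin
    have := b.fin
    exact theta_congr e)

private theorem Inst_iso {V W : Type*} {A : SimpleGraph V} {B : SimpleGraph W} (e : A ≃g B)
    (x y : V) (h : Aᶜ.Adj x y) : Bᶜ.Adj (e x) (e y) := by
  rw [compl_adj] at h ⊢
  exact ⟨fun h2 => h.1 (e.injective h2), fun h2 => h.2 (e.map_adj_iff.1 h2)⟩

private theorem Inst_coh {V W V' W' : Type*} {A : SimpleGraph V} {B : SimpleGraph W}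
    {A' : SimpleGraph V'} {B' : SimpleGraph W'} (e : A ≃g A') (f : B ≃g B') (h : Coh A B) :
    Coh A' B' := by
  obtain ⟨g, hg⟩ := h
  exact ⟨fun x => f (g (e.symm x)), fun x y hxy =>
    Inst_iso f _ _ (hg _ _ (Inst_iso e.symm _ _ hxy))⟩

/-- Cohomomorphism order of classes. -/
def gle : GC → GC → Prop :=
  Quotient.lift₂ (fun a b => Coh a.G b.G) (by
    rintro a b a' b' ⟨e⟩ ⟨f⟩
    exact propext ⟨Inst_coh e f, Inst_coh e.symm f.symm⟩)

section
variable {V W : Type} [Finite V] [Finite W]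

theorem gi_cl (G : SimpleGraph V) : gi (cl G) = G.indepNum := rfl

theorem gvv_cl (G : SimpleGraph V) : gvv (cl G) = Nat.card V := rfl

theorem gT_cl (G : SimpleGraph V) : gT (cl G) = theta G := rfl

theorem gle_cl (G : SimpleGraph V) (H : SimpleGraph W) : gle (cl G) (cl H) ↔ Coh G H := Iff.rfl

end

private theorem Inst_sep {V W : Type*} {G : SimpleGraph V} {H : SimpleGraph W} {x y : V × W} :
    (sprod G H)ᶜ.Adj x y ↔ Gᶜ.Adj x.1 y.1 ∨ Hᶜ.Adj x.2 y.2 := by
  rw [compl_adj, compl_adj, compl_adj]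
  constructor
  · rintro ⟨hne, h⟩
    by_contra hcon
    push Not at hcon
    refine h ⟨hne, ?_, ?_⟩
    · by_contra h2
      push Not at h2
      exact h2.2 (hcon.1 h2.1)
    · by_contra h2
      push Not at h2
      exact h2.2 (hcon.2 h2.1)
  · rintro (⟨h1, h2⟩ | ⟨h1, h2⟩)
    · exact ⟨fun e => h1 (by rw [e]), fun h => h.2.1.elim h1 h2⟩
    · exact ⟨fun e => h1 (by rw [e]), fun h => h.2.2.elim h1 h2⟩

private theorem Inst_inl {V W : Type*} {G : SimpleGraph V} {H : SimpleGraph W} {x y : V} :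
    (G ⊕g H)ᶜ.Adj (Sum.inl x) (Sum.inl y) ↔ Gᶜ.Adj x y := by
  rw [compl_adj, compl_adj, sum_adj_inl]
  exact and_congr_left fun _ => not_congr Sum.inl_injective.eq_iff

private theorem Inst_inr {V W : Type*} {G : SimpleGraph V} {H : SimpleGraph W} {x y : W} :
    (G ⊕g H)ᶜ.Adj (Sum.inr x) (Sum.inr y) ↔ Hᶜ.Adj x y := by
  rw [compl_adj, compl_adj, sum_adj_inr]
  exact and_congr_left fun _ => not_congr Sum.inr_injective.eq_iff

private theorem Inst_sum {V W : Type} [Finite V] [Finite W] (G : SimpleGraph V)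
    (H : SimpleGraph W) : (G ⊕g H).indepNum = G.indepNum + H.indepNum := by
  classical
  apply le_antisymm
  · obtain ⟨C, hC, hC2⟩ := exists_code (G ⊕g H)
    rw [← hC, ← Finset.card_toLeft_add_card_toRight]
    refine Nat.add_le_add (card_le _ id fun x hx y hy hxy => ?_)
      (card_le _ id fun x hx y hy hxy => ?_)
    · rw [Finset.mem_toLeft] at hx hy
      exact Inst_inl.1 (hC2 _ hx _ hy fun h => hxy (Sum.inl_injective h))
    · rw [Finset.mem_toRight] at hx hy
      exact Inst_inr.1 (hC2 _ hx _ hy fun h => hxy (Sum.inr_injective h))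
  · obtain ⟨C, hC, hC2⟩ := exists_code G
    obtain ⟨D, hD, hD2⟩ := exists_code H
    rw [← hC, ← hD, ← Finset.card_disjSum]
    refine card_le _ id fun x hx y hy hxy => ?_
    rw [Finset.mem_disjSum] at hx hy
    rcases hx with ⟨a, ha, rfl⟩ | ⟨a, ha, rfl⟩ <;> rcases hy with ⟨b, hb, rfl⟩ | ⟨b, hb, rfl⟩
    · exact Inst_inl.2 (hC2 a ha b hb fun h => hxy (by rw [h]))
    · exact (compl_adj _ _ _).2 ⟨by simp, by simp⟩
    · exact (compl_adj _ _ _).2 ⟨by simp, by simp⟩
    · exact Inst_inr.2 (hD2 a ha b hb fun h => hxy (by rw [h]))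

/-- Disjoint unions: the independence number is additive. -/
theorem gi_add (x y : GC) : gi (x + y) = gi x + gi y := by
  induction x using cl_ind with | h V G => ?_
  induction y using cl_ind with | h W H => ?_
  rw [cl_add, gi_cl, gi_cl, gi_cl]
  exact Inst_sum G H

theorem gi_zero : gi 0 = 0 := by
  rw [cl_zero, gi_cl]
  obtain ⟨C, hC, -⟩ := exists_code (⊥ : SimpleGraph PEmpty)
  rw [← hC, Finset.card_eq_zero]
  exact Finset.eq_empty_of_isEmpty C

theorem gi_natCast (n : ℕ) : gi (n : GC) = n := by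
  rw [cl_nat, gi_cl]
  apply le_antisymm
  · obtain ⟨C, hC, -⟩ := exists_code (⊥ : SimpleGraph (Fin n))
    rw [← hC]
    exact (Finset.card_le_univ C).trans (by rw [Fintype.card_fin])
  · have h : (Finset.univ : Finset (Fin n)).card ≤ (⊥ : SimpleGraph (Fin n)).indepNum := by
      refine card_le _ id fun x hx y hy hxy => ?_
      rw [compl_adj]
      exact ⟨hxy, fun h => h⟩
    rwa [Finset.card_univ, Fintype.card_fin] at h

theorem gi_mul (x y : GC) : gi x * gi y ≤ gi (x * y) := by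
  induction x using cl_ind with | h V G => ?_
  induction y using cl_ind with | h W H => ?_
  rw [cl_mul, gi_cl, gi_cl, gi_cl]
  obtain ⟨C, hC, hC2⟩ := exists_code G
  obtain ⟨D, hD, hD2⟩ := exists_code H
  rw [← hC, ← hD, ← Finset.card_product]
  refine card_le _ id fun x hx y hy hxy => ?_
  rw [Finset.mem_product] at hx hy
  refine Inst_sep.2 ?_
  by_cases h1 : x.1 = y.1
  · right
    exact hD2 _ hx.2 _ hy.2 fun h2 => hxy (Prod.ext h1 h2)
  · left
    exact hC2 _ hx.1 _ hy.1 h1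

/-- A natural number times x is a disjoint union of copies of x. -/
theorem gi_natCast_mul (n : ℕ) (x : GC) : gi ((n : GC) * x) = n * gi x := by
  induction n with
  | zero => rw [Nat.cast_zero, zero_mul, zero_mul, gi_zero]
  | succ n ih => rw [Nat.cast_succ, add_mul, gi_add, ih, one_mul, Nat.succ_mul]

theorem gi_sum {ι : Type*} (s : Finset ι) (f : ι → GC) :
    gi (∑ i ∈ s, f i) = ∑ i ∈ s, gi (f i) := by
  classical
  induction s using Finset.induction_on with
  | empty => rw [Finset.sum_empty, Finset.sum_empty, gi_zero]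
  | insert a s ha ih => rw [Finset.sum_insert ha, Finset.sum_insert ha, gi_add, ih]

/-- Fibres over the second coordinate. -/
theorem gi_mul_le (x y : GC) : gi (x * y) ≤ gi x * gvv y := by
  classical
  induction x using cl_ind with | h V G => ?_
  induction y using cl_ind with | h W H => ?_
  rw [cl_mul, gi_cl, gi_cl, gvv_cl]
  obtain ⟨C, hC, hC2⟩ := exists_code (sprod G H)
  have := Fintype.ofFinite W
  rw [← hC, Nat.card_eq_fintype_card]
  refine (Finset.card_le_mul_card_image (f := Prod.snd) C G.indepNum fun w _ => ?_).trans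
    (Nat.mul_le_mul_left _ (Finset.card_le_univ _))
  refine card_le _ Prod.fst fun x hx y hy hxy => ?_
  rw [Finset.mem_filter] at hx hy
  rcases Inst_sep.1 (hC2 x hx.1 y hy.1 hxy) with h1 | h1
  · exact h1
  · rw [hx.2, hy.2] at h1
    exact absurd rfl h1.ne

theorem gi_mono {x y : GC} (h : gle x y) : gi x ≤ gi y := by
  induction x using cl_ind with | h V G => ?_
  induction y using cl_ind with | h W H => ?_
  obtain ⟨f, hf⟩ := (gle_cl G H).1 h
  exact indepNum_le_of_map f hf

theorem gle_mul {x y : GC} (h : gle x y) (z : GC) : gle (z * x) (z * y) := by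
  induction x using cl_ind with | h V G => ?_
  induction y using cl_ind with | h W H => ?_
  induction z using cl_ind with | h U K => ?_
  obtain ⟨f, hf⟩ := (gle_cl G H).1 h
  rw [cl_mul, cl_mul, gle_cl]
  refine ⟨fun a => (a.1, f a.2), fun a b hab => ?_⟩
  rw [Inst_sep] at hab ⊢
  exact hab.imp id (hf _ _)

theorem gle_pow {x y : GC} (h : gle x y) (n : ℕ) : gle (x ^ n) (y ^ n) := by
  induction x using cl_ind with | h V G => ?_
  induction y using cl_ind with | h W H => ?_
  obtain ⟨f, hf⟩ := (gle_cl G H).1 h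
  rw [cl_pow, cl_pow, gle_cl]
  exact ⟨fun a i => f (a i), fun a b hab => map_spow f hf a b hab⟩

theorem gle_add (x y : GC) : gle x (x + y) := by
  induction x using cl_ind with | h V G => ?_
  induction y using cl_ind with | h W H => ?_
  rw [cl_add, gle_cl]
  exact ⟨Sum.inl, fun a b hab => Inst_inl.2 hab⟩

theorem gi_pow_le (x : GC) (n : ℕ) : (gi (x ^ n) : ℝ) ≤ gT x ^ n := by
  induction x using cl_ind with | h V G => ?_
  rw [cl_pow, gi_cl, gT_cl]
  exact al_le_theta G n

theorem gT_le (x : GC) {b : ℝ} (hb : 0 ≤ b)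
    (h : ∀ n : ℕ, (gi (x ^ (n + 1)) : ℝ) ≤ b ^ (n + 1)) : gT x ≤ b := by
  induction x using cl_ind with | h V G => ?_
  rw [gT_cl]
  refine theta_le G hb fun n => ?_
  have h1 := h n
  rw [cl_pow, gi_cl] at h1
  exact h1

theorem gT_nonneg (x : GC) : 0 ≤ gT x := by
  induction x using cl_ind with | h V G => ?_
  exact theta_nonneg G

theorem gvv_mul (x y : GC) : gvv (x * y) = gvv x * gvv y := by
  induction x using cl_ind with | h V G => ?_
  induction y using cl_ind with | h W H => ?_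
  rw [cl_mul, gvv_cl, gvv_cl, gvv_cl, Nat.card_prod]

theorem gvv_natCast (n : ℕ) : gvv (n : GC) = n := by
  rw [cl_nat, gvv_cl, Nat.card_fin]

theorem gvv_zero (x : GC) (h : gvv x = 0) : x = 0 := by
  induction x using cl_ind with | h V G => ?_
  rw [gvv_cl, Nat.card_eq_zero] at h
  have hV : IsEmpty V := h.resolve_right fun h2 => not_finite_iff_infinite.2 h2 inferInstance
  rw [cl_zero, cl_eq]
  exact ⟨⟨Equiv.equivOfIsEmpty V PEmpty, fun {a} => (hV.false a).elim⟩⟩

private theorem Inst_one : gvv 1 = 1 := by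
  have h := gvv_natCast 1
  rwa [Nat.cast_one] at h

theorem gvv_pow (x : GC) (n : ℕ) : gvv (x ^ n) = gvv x ^ n := by
  induction n with
  | zero => rw [pow_zero, pow_zero, Inst_one]
  | succ n ih => rw [pow_succ, gvv_mul, ih, pow_succ]

theorem gT_pos (x : GC) (h : 1 ≤ gvv x) : 1 ≤ gT x := by
  induction x using cl_ind with | h V G => ?_
  rw [gvv_cl] at h
  have hV : Nonempty V := (Nat.card_pos_iff.1 h).1
  exact one_le_theta G

private theorem Inst_gi_le (x : GC) : (gi x : ℝ) ≤ gT x := by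
  have h := gi_pow_le x 1
  rwa [pow_one, pow_one] at h

private theorem Inst_pow_le (x : GC) {b : ℝ} (hb : 0 ≤ b) {d : ℕ} (hd : d ≠ 0)
    (h : ∀ L : ℕ, (gi (x ^ (d * (L + 1))) : ℝ) ≤ b ^ (L + 1)) : gT x ^ d ≤ b := by
  induction x using cl_ind with | h V G => ?_
  rw [gT_cl]
  refine theta_pow_le G hb hd fun L => ?_
  have h1 := h L
  rw [cl_pow, gi_cl] at h1
  exact h1

private theorem Inst_gi_pow (x : GC) (k : ℕ) : gi x ^ k ≤ gi (x ^ k) := by
  induction x using cl_ind with | h V G => ?_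
  rw [cl_pow, gi_cl, gi_cl]
  exact pow_le_al_one G k

/-- Powers: gi (x^m)^n ≤ gi ((x^n)^m). -/
theorem gT_pow (x : GC) (n : ℕ) : gT (x ^ n) = gT x ^ n := by
  have hx := gT_nonneg x
  apply le_antisymm
  · refine gT_le _ (pow_nonneg hx n) fun m => ?_
    rw [← pow_mul, ← pow_mul]
    exact gi_pow_le x _
  · rcases Nat.eq_zero_or_pos n with rfl | hn
    · rw [pow_zero, pow_zero]
      exact gT_pos 1 (by rw [Inst_one])
    · refine Inst_pow_le x (gT_nonneg _) (by omega) fun L => ?_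
      rw [pow_mul]
      exact gi_pow_le _ _

theorem gT_mul (x y : GC) : gT x * gT y ≤ gT (x * y) := by
  have hx := gT_nonneg x
  have hb := gT_nonneg (x * y)
  rcases eq_or_lt_of_le hx with h0 | h0
  · rw [← h0, zero_mul]
    exact hb
  · rw [mul_comm, ← le_div_iff₀ h0]
    refine gT_le y (div_nonneg hb hx) fun n => ?_
    rw [div_pow, le_div_iff₀ (pow_pos h0 _)]
    rcases Nat.eq_zero_or_pos (gi (y ^ (n + 1))) with hA | hA
    · rw [hA, Nat.cast_zero, zero_mul]
      exact pow_nonneg hb _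
    · have hA' : (0 : ℝ) < gi (y ^ (n + 1)) := by exact_mod_cast hA
      rw [mul_comm, ← le_div_iff₀ hA']
      refine Inst_pow_le x (div_nonneg (pow_nonneg hb _) hA'.le) (Nat.succ_ne_zero n)
        fun L => ?_
      rw [div_pow, le_div_iff₀ (pow_pos hA' _), ← pow_mul]
      have h1 : gi (x ^ ((n + 1) * (L + 1))) * gi (y ^ (n + 1)) ^ (L + 1) ≤
          gi ((x * y) ^ ((n + 1) * (L + 1))) := by
        refine (Nat.mul_le_mul_left _ (Inst_gi_pow _ _)).trans ?_
        rw [← pow_mul, mul_pow]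
        exact gi_mul _ _
      have h2 : (gi (x ^ ((n + 1) * (L + 1))) : ℝ) * (gi (y ^ (n + 1)) : ℝ) ^ (L + 1) ≤
          gi ((x * y) ^ ((n + 1) * (L + 1))) := by exact_mod_cast h1
      exact h2.trans (gi_pow_le _ _)

/-- From gi ((x*y)^n) ≤ gi (x^n) * v(y)^n ≤ T(x)^n v(y)^n. -/
theorem gT_lip (x y : GC) : gT (x * y) ≤ gT x * gvv y := by
  refine gT_le _ (mul_nonneg (gT_nonneg x) (Nat.cast_nonneg _)) fun n => ?_
  rw [mul_pow, mul_pow]
  have h1 : (gi (x ^ (n + 1) * y ^ (n + 1)) : ℝ) ≤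
      gi (x ^ (n + 1)) * (gvv y : ℝ) ^ (n + 1) := by
    have h2 := gi_mul_le (x ^ (n + 1)) (y ^ (n + 1))
    rw [gvv_pow] at h2
    exact_mod_cast h2
  exact h1.trans (mul_le_mul_of_nonneg_right (gi_pow_le x _) (by positivity))

theorem gT_mono (x y z : GC) (h : gle x y) : gT (z * x) ≤ gT (z * y) := by
  refine gT_le _ (gT_nonneg _) fun n => ?_
  have h1 : (gi ((z * x) ^ (n + 1)) : ℝ) ≤ gi ((z * y) ^ (n + 1)) := by
    exact_mod_cast gi_mono (gle_pow (gle_mul h z) (n + 1))
  exact h1.trans (gi_pow_le _ _)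

theorem gT_nat (n : ℕ) : (n : ℝ) ≤ gT (n : GC) := by
  have h := Inst_gi_le (n : GC)
  rwa [gi_natCast] at h

/-- From (x(g+h))^n = ∑ C(n,k) x^n g^k h^(n-k) (mul_pow, add_pow), gi_sum, gi_natCast_mul and
gi y ≤ gT y (gi_pow_le with n = 1). -/
theorem gT_sum (x g h : GC) (c a b : ℝ) (hc : 0 ≤ c) (ha : 0 ≤ a) (hb : 0 ≤ b)
    (H : ∀ n k l : ℕ, 1 ≤ n → k + l = n → gT (x ^ n * (g ^ k * h ^ l)) ≤ c ^ n * (a ^ k * b ^ l)) :
    gT (x * (g + h)) ≤ c * (a + b) := by
  refine gT_le _ (mul_nonneg hc (add_nonneg ha hb)) fun n => ?_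
  have h1 : (x * (g + h)) ^ (n + 1) = ∑ m ∈ Finset.range (n + 1 + 1),
      (((n + 1).choose m : ℕ) : GC) * (x ^ (n + 1) * (g ^ m * h ^ (n + 1 - m))) := by
    rw [mul_pow, add_pow, Finset.mul_sum]
    refine Finset.sum_congr rfl fun m _ => ?_
    rw [mul_comm (g ^ m * h ^ (n + 1 - m)) _, mul_left_comm]
  rw [h1, gi_sum, Nat.cast_sum, mul_pow, add_pow, Finset.mul_sum]
  refine Finset.sum_le_sum fun m hm => ?_
  rw [Finset.mem_range] at hm
  rw [gi_natCast_mul, Nat.cast_mul]
  have h2 := (Inst_gi_le (x ^ (n + 1) * (g ^ m * h ^ (n + 1 - m)))).trans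
    (H (n + 1) m (n + 1 - m) (by omega) (by omega))
  calc (((n + 1).choose m : ℕ) : ℝ) * (gi (x ^ (n + 1) * (g ^ m * h ^ (n + 1 - m))) : ℝ)
      ≤ (((n + 1).choose m : ℕ) : ℝ) * (c ^ (n + 1) * (a ^ m * b ^ (n + 1 - m))) :=
        mul_le_mul_of_nonneg_left h2 (Nat.cast_nonneg _)
    _ = c ^ (n + 1) * (a ^ m * b ^ (n + 1 - m) * (((n + 1).choose m : ℕ) : ℝ)) := by ring

/-- The capacity data of the semiring of graphs. -/
noncomputable def capGC : Cap GC where
  v := gvv
  T := gT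
  le := gle
  v_mul := gvv_mul
  v_nat := gvv_natCast
  v_zero := gvv_zero
  T_nonneg := gT_nonneg
  T_pos := gT_pos
  T_mul := gT_mul
  T_pow := gT_pow
  T_lip := gT_lip
  T_mono := gT_mono
  T_nat := gT_nat
  le_add := gle_add
  T_sum := gT_sum

end Pool.Agent.SD
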