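import Pool.Agent.H.MP_4f19f9_lc.SD.Defs

/-!
# Isomorphisms behind the semiring laws
-/

namespace Pool.Agent.SD

open SimpleGraph

variable {V W U V' W' : Type*}

/-- Pairs are equal or adjacent when both coordinates are. -/
theorem sprod_ea {G : SimpleGraph V} {H : SimpleGraph W} {x y : V × W} :
    (x = y ∨ (sprod G H).Adj x y) ↔
      (x.1 = y.1 ∨ G.Adj x.1 y.1) ∧ (x.2 = y.2 ∨ H.Adj x.2 y.2) := by
  constructor
  · rintro (rfl | h)
    · exact ⟨Or.inl rfl, Or.inl rfl⟩
    · exact h.2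
  · intro h
    by_cases hxy : x = y
    · exact Or.inl hxy
    · exact Or.inr ⟨hxy, h⟩

/-- A bijection that respects (equal or adjacent) is an isomorphism. -/
def isoOf {G : SimpleGraph V} {H : SimpleGraph W} (e : V ≃ W)
    (h : ∀ x y, (e x = e y ∨ H.Adj (e x) (e y)) ↔ (x = y ∨ G.Adj x y)) : G ≃g H where
  toEquiv := e
  map_rel_iff' := by
    intro x y
    have h1 := h x y
    constructor
    · intro h2
      rcases h1.1 (Or.inr h2) with h3 | h3
      · exact absurd (congrArg e h3) h2.ne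
      · exact h3
    · intro h2
      rcases h1.2 (Or.inr h2) with h3 | h3
      · exact absurd (e.injective h3) h2.ne
      · exact h3

/-- The relation (equal or adjacent) under an isomorphism. -/
theorem Iso_ea {G : SimpleGraph V} {H : SimpleGraph W} (e : G ≃g H) (x y : V) :
    (e x = e y ∨ H.Adj (e x) (e y)) ↔ (x = y ∨ G.Adj x y) := by
  rw [e.map_adj_iff, e.injective.eq_iff]

theorem iso_sprod_congr {G : SimpleGraph V} {H : SimpleGraph W} {G' : SimpleGraph V'}
    {H' : SimpleGraph W'} (e : G ≃g G') (f : H ≃g H') :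
    Nonempty (sprod G H ≃g sprod G' H') := by
  refine ⟨isoOf (Equiv.prodCongr e.toEquiv f.toEquiv) fun x y => ?_⟩
  rw [sprod_ea, sprod_ea]
  exact and_congr (Iso_ea e x.1 y.1) (Iso_ea f x.2 y.2)

theorem iso_sum_congr {G : SimpleGraph V} {H : SimpleGraph W} {G' : SimpleGraph V'}
    {H' : SimpleGraph W'} (e : G ≃g G') (f : H ≃g H') :
    Nonempty (G ⊕g H ≃g G' ⊕g H') := ⟨Iso.sumCongr e f⟩

theorem iso_sprod_comm (G : SimpleGraph V) (H : SimpleGraph W) :
    Nonempty (sprod G H ≃g sprod H G) := by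
  refine ⟨isoOf (Equiv.prodComm V W) fun x y => ?_⟩
  rw [sprod_ea, sprod_ea]
  exact and_comm

theorem iso_sprod_assoc (G : SimpleGraph V) (H : SimpleGraph W) (K : SimpleGraph U) :
    Nonempty (sprod (sprod G H) K ≃g sprod G (sprod H K)) := by
  refine ⟨isoOf (Equiv.prodAssoc V W U) fun x y => ?_⟩
  rw [sprod_ea, sprod_ea, sprod_ea, sprod_ea]
  exact and_assoc.symm

theorem iso_one_sprod (G : SimpleGraph V) :
    Nonempty (sprod (⊥ : SimpleGraph PUnit) G ≃g G) := by
  refine ⟨isoOf (Equiv.punitProd V) fun x y => ?_⟩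
  rw [sprod_ea]
  constructor
  · exact fun h => ⟨Or.inl rfl, h⟩
  · exact fun h => h.2

theorem iso_zero_sprod (G : SimpleGraph V) :
    Nonempty (sprod (⊥ : SimpleGraph PEmpty) G ≃g (⊥ : SimpleGraph PEmpty)) := by
  refine ⟨isoOf (Equiv.equivPEmpty _) fun x y => ?_⟩
  exact x.1.elim

theorem iso_zero_sum (G : SimpleGraph V) :
    Nonempty ((⊥ : SimpleGraph PEmpty) ⊕g G ≃g G) := by
  refine ⟨⟨Equiv.emptySum PEmpty V, ?_⟩⟩
  rintro (x | x) (y | y)
  · exact x.elim
  · exact x.elim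
  · exact y.elim
  · simp

theorem iso_distrib (G : SimpleGraph V) (H : SimpleGraph W) (K : SimpleGraph U) :
    Nonempty (sprod G (H ⊕g K) ≃g sprod G H ⊕g sprod G K) := by
  refine ⟨isoOf (Equiv.prodSumDistrib V W U) ?_⟩
  rintro ⟨x, x' | x'⟩ ⟨y, y' | y'⟩
  · rw [sprod_ea]
    have h1 := sprod_ea (G := G) (H := H) (x := (x, x')) (y := (y, y'))
    simp only [Equiv.prodSumDistrib_apply_left, sum_adj_inl, Sum.inl.injEq]
    exact h1
  · rw [sprod_ea]
    simp
  · rw [sprod_ea]
    simp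
  · rw [sprod_ea]
    have h1 := sprod_ea (G := G) (H := K) (x := (x, x')) (y := (y, y'))
    simp only [Equiv.prodSumDistrib_apply_right, sum_adj_inr, Sum.inr.injEq]
    exact h1

end Pool.Agent.SD
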