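import Pool.Agent.H.MP_4f19f9_lc.SD.Core

/-!
# The limit functional of a run
-/

namespace Pool.Agent.SD

open Filter Topology

/-- A bound growing linearly does not dominate an exponential. -/
theorem Lm_le_of_pow {x y : ℝ} (hx : 0 ≤ x) (hy : 0 < y)
    (h : ∀ N : ℕ, x ^ N ≤ (N + 1) * y ^ N) : x ≤ y := by
  by_contra hcon
  push Not at hcon
  have hr : 1 < x / y := by rwa [one_lt_div hy]
  have h1 := tendsto_pow_const_div_const_pow_of_one_lt 1 hr
  have h2 : ∀ᶠ n : ℕ in atTop, (n : ℝ) ^ 1 / (x / y) ^ n < 1 / 2 :=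
    h1.eventually (gt_mem_nhds (by norm_num))
  obtain ⟨n, hn, hn2⟩ := (h2.and (eventually_ge_atTop 1)).exists
  have h3 : (x / y) ^ n ≤ n + 1 := by
    rw [div_pow, div_le_iff₀ (by positivity)]
    exact h n
  have hn1 : (1 : ℝ) ≤ n := by exact_mod_cast hn2
  rw [pow_one, div_lt_iff₀ (by positivity)] at hn
  nlinarith

variable {M : Type*} [CommSemiring M]

namespace Run

variable {C : Cap M} (r : Run C)

theorem X_pos (s : ℕ) : 1 ≤ C.v (r.X s) := by
  induction s with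
  | zero => exact r.vX0
  | succ s ih =>
    rw [r.hX]
    exact C.v_pos_mul (C.v_pos_pow ih _) (r.vZ s)

theorem q_pos (s : ℕ) : 1 ≤ r.q s := by
  induction s with
  | zero => exact r.hq0
  | succ s ih =>
    have := r.hq s
    omega

theorem p_pos (s : ℕ) : 1 ≤ r.p s := by
  have := r.hp s
  omega

theorem m_pos (s : ℕ) : 1 ≤ r.m s := by
  have h1 := r.hm s
  have h2 := r.q_pos s
  have h3 := r.p_pos s
  have : 1 * 1 ≤ r.q s * r.p s := Nat.mul_le_mul h2 h3
  nlinarith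

theorem ball_step {s : ℕ} {A : M} (h : C.Ball (r.X (s + 1)) (r.q (s + 1)) A) :
    C.Ball (r.X s) (r.q s) A := by
  rw [r.hX] at h
  exact C.ball_nest (r.m_pos s) (r.vZ s) (r.hZ s) (r.hq s) h

theorem ball_later {s t : ℕ} (hst : s ≤ t) {A : M} (h : C.Ball (r.X t) (r.q t) A) :
    C.Ball (r.X s) (r.q s) A := by
  induction t, hst using Nat.le_induction with
  | base => exact h
  | succ t _ ih => exact ih (r.ball_step h)

/-- Admissible base points at stage t. -/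
def Adm (t : ℕ) (A : M) : Prop :=
  ∃ (n : ℕ) (w : M), 1 ≤ n ∧ 1 ≤ C.v w ∧ C.v w ≤ 2 ^ (r.p t * n) ∧ A = r.X (t + 1) ^ n * w

theorem adm_pos {t : ℕ} {A : M} (h : r.Adm t A) : 1 ≤ C.v A := by
  obtain ⟨n, w, -, hw, -, rfl⟩ := h
  exact C.v_pos_mul (C.v_pos_pow (r.X_pos _) n) hw

theorem adm_self (t : ℕ) : r.Adm t (r.X (t + 1)) :=
  ⟨1, 1, le_rfl, by rw [C.v_one], by rw [C.v_one]; exact Nat.one_le_two_pow, by ring⟩

theorem adm_ball {t : ℕ} {A : M} (h : r.Adm t A) : C.Ball (r.X t) (r.q t) A := by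
  obtain ⟨n, w, hn, hw, hwp, rfl⟩ := h
  refine ⟨r.m t * n, r.Z t ^ n * w, Nat.mul_pos (r.m_pos t) hn,
    C.v_pos_mul (C.v_pos_pow (r.vZ t) n) hw, by rw [r.hX, mul_pow, ← pow_mul]; ring, ?_⟩
  have h1 : (C.v (r.Z t ^ n * w) ^ r.q t) ^ 2 ≤ (2 ^ (r.m t * n)) ^ 2 := by
    rw [C.v_mul, C.v_pow]
    calc ((C.v (r.Z t) ^ n * C.v w) ^ r.q t) ^ 2
        = (C.v (r.Z t) ^ (2 * r.q t)) ^ n * C.v w ^ (2 * r.q t) := by ring
      _ ≤ (2 ^ r.m t) ^ n * (2 ^ (r.p t * n)) ^ (2 * r.q t) :=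
          Nat.mul_le_mul (Nat.pow_le_pow_left (r.hZ t) n) (Nat.pow_le_pow_left hwp _)
      _ = (2 ^ r.m t) ^ n * 2 ^ ((2 * r.q t * r.p t) * n) := by
          rw [← pow_mul 2 (r.p t * n)]
          congr 2
          ring
      _ ≤ (2 ^ r.m t) ^ n * 2 ^ (r.m t * n) :=
          Nat.mul_le_mul_left _ (Nat.pow_le_pow_right (by norm_num)
            (Nat.mul_le_mul_right _ (r.hm t)))
      _ = (2 ^ (r.m t * n)) ^ 2 := by rw [← pow_mul]; ring
  exact (Nat.pow_le_pow_iff_left (by norm_num)).1 h1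

theorem adm_ball_later {s t : ℕ} (hst : s + 1 ≤ t) {A : M} (h : r.Adm t A) :
    C.Ball (r.X (s + 1)) (r.q (s + 1)) A := r.ball_later hst (r.adm_ball h)

/-- After a visit, the secant quotients stay close. -/
theorem visit_est {s t : ℕ} {g : M} (hv : r.Visit s g) (hst : s + 1 ≤ t) {A : M}
    (h : r.Adm t A) : |C.rho A g - C.rho (r.X (s + 1)) g| ≤ 3 * C.v g / r.p s := by
  obtain ⟨hg, B, hB, hX, ht⟩ := hv
  have h1 := r.adm_ball_later hst h
  rw [hX] at h1 ⊢
  exact C.ball_est (r.p_pos s) hB hg ht h1 (r.hpq s)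

/-- Every direction is treated infinitely often. -/
def Full : Prop := ∀ g : M, 1 ≤ C.v g → ∀ N : ℕ, ∃ s ≥ N, r.Visit s g

theorem rho_zero (A : M) (hA : 1 ≤ C.v A) {g : M} (hg : C.v g = 0) : C.rho A g = 0 := by
  apply le_antisymm _ (C.rho_nonneg _ _)
  have := C.rho_le hA g
  rw [hg] at this
  simpa using this

/-- Approximation of all later admissible quotients. -/
theorem approx (hf : r.Full) (g : M) {e : ℝ} (he : 0 < e) :
    ∃ (R : ℝ) (s : ℕ), ∀ t, s ≤ t → ∀ A, r.Adm t A → |C.rho A g - R| ≤ e := by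
  rcases Nat.eq_zero_or_pos (C.v g) with h0 | h0
  · refine ⟨0, 0, fun t _ A hA => ?_⟩
    rw [rho_zero A (r.adm_pos hA) h0]
    simpa using he.le
  · obtain ⟨N, hN⟩ := exists_nat_gt (3 * (C.v g : ℝ) / e)
    obtain ⟨s, hs, hv⟩ := hf g h0 N
    refine ⟨C.rho (r.X (s + 1)) g, s + 1, fun t ht A hA => ?_⟩
    refine le_trans (r.visit_est hv ht hA) ?_
    have hp : (N : ℝ) ≤ r.p s := by
      have := r.hp s
      exact_mod_cast (by omega : N ≤ r.p s)
    have hp0 : (0 : ℝ) < r.p s := by exact_mod_cast r.p_pos s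
    rw [div_le_iff₀ hp0]
    rw [div_lt_iff₀ he] at hN
    nlinarith

theorem exists_lim (hf : r.Full) (g : M) :
    ∃ L : ℝ, Tendsto (fun t => C.rho (r.X (t + 1)) g) atTop (𝓝 L) := by
  apply cauchySeq_tendsto_of_complete
  rw [Metric.cauchySeq_iff]
  intro e he
  obtain ⟨R, s, hs⟩ := r.approx hf g (e := e / 3) (by positivity)
  refine ⟨s, fun a ha b hb => ?_⟩
  have h1 := hs a ha _ (r.adm_self a)
  have h2 := hs b hb _ (r.adm_self b)
  rw [Real.dist_eq]
  rw [abs_le] at h1 h2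
  rw [abs_lt]
  constructor <;> linarith [h1.1, h1.2, h2.1, h2.2]

/-- The limit functional. -/
noncomputable def phi (hf : r.Full) (g : M) : ℝ := (r.exists_lim hf g).choose

theorem phi_lim (hf : r.Full) (g : M) :
    Tendsto (fun t => C.rho (r.X (t + 1)) g) atTop (𝓝 (r.phi hf g)) :=
  (r.exists_lim hf g).choose_spec

theorem phi_adm (hf : r.Full) (g : M) {e : ℝ} (he : 0 < e) :
    ∀ᶠ t in atTop, ∀ A, r.Adm t A → |C.rho A g - r.phi hf g| ≤ e := by
  obtain ⟨R, s, hs⟩ := r.approx hf g (e := e / 2) (by positivity)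
  have h1 : |r.phi hf g - R| ≤ e / 2 := by
    have h2 : Tendsto (fun t => |C.rho (r.X (t + 1)) g - R|) atTop (𝓝 |r.phi hf g - R|) :=
      ((r.phi_lim hf g).sub_const R).abs
    refine le_of_tendsto h2 ?_
    filter_upwards [eventually_ge_atTop s] with t ht
    exact hs t ht _ (r.adm_self t)
  filter_upwards [eventually_ge_atTop s] with t ht A hA
  have h3 := hs t ht A hA
  rw [abs_le] at h1 h3 ⊢
  constructor <;> linarith [h1.1, h1.2, h3.1, h3.2]

/-- The explicit rate. -/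
theorem phi_visit (hf : r.Full) {s : ℕ} {g : M} (hv : r.Visit s g) :
    |r.phi hf g - C.rho (r.X (s + 1)) g| ≤ 3 * C.v g / r.p s := by
  have h2 : Tendsto (fun t => |C.rho (r.X (t + 1)) g - C.rho (r.X (s + 1)) g|) atTop
      (𝓝 |r.phi hf g - C.rho (r.X (s + 1)) g|) := ((r.phi_lim hf g).sub_const _).abs
  refine le_of_tendsto h2 ?_
  filter_upwards [eventually_ge_atTop (s + 1)] with t ht
  exact r.visit_est hv ht (r.adm_self t)

theorem phi_nat (hf : r.Full) (n : ℕ) : r.phi hf (n : M) = n := by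
  refine tendsto_nhds_unique (r.phi_lim hf _) ?_
  have : ∀ t, C.rho (r.X (t + 1)) (n : M) = n := by
    intro t
    apply le_antisymm
    · have := C.rho_le (r.X_pos (t + 1)) (n : M)
      rwa [C.v_nat] at this
    · exact le_trans (C.T_nat n) (C.T_le_rho (r.X_pos _) _)
  simp only [this]
  exact tendsto_const_nhds

theorem phi_zero (hf : r.Full) : r.phi hf 0 = 0 := by simpa using r.phi_nat hf 0

theorem phi_one (hf : r.Full) : r.phi hf 1 = 1 := by simpa using r.phi_nat hf 1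

theorem phi_mono (hf : r.Full) {g h : M} (hgh : C.le g h) : r.phi hf g ≤ r.phi hf h := by
  refine le_of_tendsto_of_tendsto' (r.phi_lim hf g) (r.phi_lim hf h) (fun t => ?_)
  exact div_le_div_of_nonneg_right (C.T_mono _ _ _ hgh) (C.T_nonneg _)

theorem T_le_phi (hf : r.Full) (g : M) : C.T g ≤ r.phi hf g :=
  ge_of_tendsto' (r.phi_lim hf g) (fun _ => C.T_le_rho (r.X_pos _) g)

theorem phi_nonneg (hf : r.Full) (g : M) : 0 ≤ r.phi hf g :=
  le_trans (C.T_nonneg g) (r.T_le_phi hf g)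

theorem adm_mul {t : ℕ} {g : M} (hg : 1 ≤ C.v g) (h : C.v g ≤ t) :
    r.Adm t (r.X (t + 1) * g) := by
  refine ⟨1, g, le_rfl, hg, ?_, by ring⟩
  have h1 := r.hp t
  calc C.v g ≤ 2 ^ C.v g := Nat.lt_two_pow_self.le
    _ ≤ 2 ^ (r.p t * 1) := Nat.pow_le_pow_right (by norm_num) (by omega)

/-- Multiplicativity. -/
theorem phi_mul (hf : r.Full) (g h : M) : r.phi hf (g * h) = r.phi hf g * r.phi hf h := by
  rcases Nat.eq_zero_or_pos (C.v g) with h0 | h0
  · rw [C.v_zero g h0, zero_mul, phi_zero, zero_mul]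
  have h1 : Tendsto (fun t => C.rho (r.X (t + 1) * g) h) atTop (𝓝 (r.phi hf h)) := by
    rw [Metric.tendsto_atTop]
    intro e he
    have h2 := (r.phi_adm hf h (e := e / 2) (by positivity)).and (eventually_ge_atTop (C.v g))
    rw [eventually_atTop] at h2
    obtain ⟨s, hs⟩ := h2
    refine ⟨s, fun t ht => ?_⟩
    obtain ⟨h3, h4⟩ := hs t ht
    rw [Real.dist_eq]
    exact lt_of_le_of_lt (h3 _ (r.adm_mul h0 h4)) (by linarith)
  refine tendsto_nhds_unique (r.phi_lim hf (g * h)) ?_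
  refine ((r.phi_lim hf g).mul h1).congr (fun t => ?_)
  have hpos := C.T_pos' (C.v_pos_mul (r.X_pos (t + 1)) h0)
  have hpos2 := C.T_pos' (r.X_pos (t + 1))
  unfold Cap.rho
  rw [mul_assoc (r.X (t + 1)) g h]
  field_simp

theorem phi_pow (hf : r.Full) (g : M) (n : ℕ) : r.phi hf (g ^ n) = r.phi hf g ^ n := by
  induction n with
  | zero => rw [pow_zero, pow_zero, phi_one]
  | succ n ih => rw [pow_succ, phi_mul, ih, pow_succ]

/-- Superadditivity, by the binomial theorem. -/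
theorem phi_add_ge (hf : r.Full) {g h : M} (hg : 1 ≤ C.v g) :
    r.phi hf g + r.phi hf h ≤ r.phi hf (g + h) := by
  have hpos : 0 < r.phi hf (g + h) := by
    have h1 : 1 ≤ r.phi hf g := le_trans (C.T_pos g hg) (r.T_le_phi hf g)
    exact lt_of_lt_of_le one_pos (le_trans h1 (r.phi_mono hf (C.le_add g h)))
  refine Lm_le_of_pow (add_nonneg (r.phi_nonneg hf g) (r.phi_nonneg hf h)) hpos (fun N => ?_)
  rw [add_pow]
  have h1 : ∀ k ∈ Finset.range (N + 1),
      r.phi hf g ^ k * r.phi hf h ^ (N - k) * (N.choose k : ℝ) ≤ r.phi hf (g + h) ^ N := by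
    intro k hk
    rw [← r.phi_pow hf (g + h), add_pow, ← Finset.add_sum_erase _ _ hk]
    refine le_trans (le_of_eq ?_) (r.phi_mono hf (C.le_add _ _))
    rw [phi_mul, phi_mul, phi_pow, phi_pow, phi_nat]
  refine le_trans (Finset.sum_le_sum h1) ?_
  rw [Finset.sum_const, Finset.card_range, nsmul_eq_mul]
  push_cast
  exact le_rfl

/-- Chain of secants. -/
theorem chain {t : ℕ} {g h : M} {a b : ℝ} (hg : 1 ≤ C.v g) (hh : 1 ≤ C.v h)
    (hgh : C.v g * C.v h ≤ 2 ^ r.p t) (ha0 : 0 ≤ a) (hb0 : 0 ≤ b)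
    (ha : ∀ A, r.Adm t A → C.rho A g ≤ a) (hb : ∀ A, r.Adm t A → C.rho A h ≤ b)
    {n : ℕ} (hn : 1 ≤ n) (k l : ℕ) (hkl : k + l ≤ n) :
    C.T (r.X (t + 1) ^ n * (g ^ k * h ^ l)) ≤ C.T (r.X (t + 1)) ^ n * (a ^ k * b ^ l) := by
  have hadm : ∀ i j : ℕ, i + j ≤ n → r.Adm t (r.X (t + 1) ^ n * (g ^ i * h ^ j)) := by
    intro i j hij
    refine ⟨n, g ^ i * h ^ j, hn, C.v_pos_mul (C.v_pos_pow hg i) (C.v_pos_pow hh j), ?_, rfl⟩
    rw [C.v_mul, C.v_pow, C.v_pow]
    calc C.v g ^ i * C.v h ^ j ≤ C.v g ^ n * C.v h ^ n :=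
          Nat.mul_le_mul (Nat.pow_le_pow_right hg (by omega)) (Nat.pow_le_pow_right hh (by omega))
      _ = (C.v g * C.v h) ^ n := (mul_pow _ _ _).symm
      _ ≤ (2 ^ r.p t) ^ n := Nat.pow_le_pow_left hgh n
      _ = 2 ^ (r.p t * n) := (pow_mul _ _ _).symm
  have hstep : ∀ (A w : M) (c : ℝ), 1 ≤ C.v A → C.rho A w ≤ c → C.T (A * w) ≤ C.T A * c := by
    intro A w c hA hc
    unfold Cap.rho at hc
    rw [div_le_iff₀ (C.T_pos' hA)] at hc
    linarith
  induction l with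
  | zero =>
    induction k with
    | zero => simp [C.T_pow]
    | succ k ih =>
      have h1 := hadm k 0 (by omega)
      have h2 := hstep _ g a (r.adm_pos h1) (ha _ h1)
      have e : r.X (t + 1) ^ n * (g ^ (k + 1) * h ^ 0) = r.X (t + 1) ^ n * (g ^ k * h ^ 0) * g := by
        ring
      rw [e]
      refine le_trans h2 ?_
      calc C.T (r.X (t + 1) ^ n * (g ^ k * h ^ 0)) * a
          ≤ (C.T (r.X (t + 1)) ^ n * (a ^ k * b ^ 0)) * a :=
            mul_le_mul_of_nonneg_right (ih (by omega)) ha0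
        _ = C.T (r.X (t + 1)) ^ n * (a ^ (k + 1) * b ^ 0) := by ring
  | succ l ih =>
    have h1 := hadm k l (by omega)
    have h2 := hstep _ h b (r.adm_pos h1) (hb _ h1)
    have e : r.X (t + 1) ^ n * (g ^ k * h ^ (l + 1)) = r.X (t + 1) ^ n * (g ^ k * h ^ l) * h := by
      ring
    rw [e]
    refine le_trans h2 ?_
    calc C.T (r.X (t + 1) ^ n * (g ^ k * h ^ l)) * b
        ≤ (C.T (r.X (t + 1)) ^ n * (a ^ k * b ^ l)) * b :=
          mul_le_mul_of_nonneg_right (ih (by omega)) hb0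
      _ = C.T (r.X (t + 1)) ^ n * (a ^ k * b ^ (l + 1)) := by ring

/-- Subadditivity. -/
theorem phi_add_le (hf : r.Full) {g h : M} (hg : 1 ≤ C.v g) (hh : 1 ≤ C.v h) :
    r.phi hf (g + h) ≤ r.phi hf g + r.phi hf h := by
  apply le_of_forall_pos_le_add
  intro e he
  have h1 := (r.phi_adm hf g (e := e / 2) (by positivity)).and
    ((r.phi_adm hf h (e := e / 2) (by positivity)).and
      (eventually_ge_atTop (C.v g * C.v h)))
  refine le_of_tendsto (r.phi_lim hf (g + h)) ?_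
  filter_upwards [h1] with t ht
  obtain ⟨h2, h3, h4⟩ := ht
  have hgh : C.v g * C.v h ≤ 2 ^ r.p t := by
    have h5 := r.hp t
    calc C.v g * C.v h ≤ 2 ^ (C.v g * C.v h) := Nat.lt_two_pow_self.le
      _ ≤ 2 ^ r.p t := Nat.pow_le_pow_right (by norm_num) (by omega)
  have ha0 : 0 ≤ r.phi hf g + e / 2 := add_nonneg (r.phi_nonneg hf g) (by positivity)
  have hb0 : 0 ≤ r.phi hf h + e / 2 := add_nonneg (r.phi_nonneg hf h) (by positivity)
  have h5 := C.T_sum (r.X (t + 1)) g h (C.T (r.X (t + 1))) (r.phi hf g + e / 2)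
    (r.phi hf h + e / 2) (C.T_nonneg _) ha0 hb0 (fun n k l hn hkl =>
      r.chain hg hh hgh ha0 hb0
        (fun A hA => by have := (abs_le.1 (h2 A hA)).2; linarith)
        (fun A hA => by have := (abs_le.1 (h3 A hA)).2; linarith) hn k l hkl.le)
  unfold Cap.rho
  rw [div_le_iff₀ (C.T_pos' (r.X_pos _))]
  linarith

/-- Additivity. -/
theorem phi_add (hf : r.Full) (g h : M) : r.phi hf (g + h) = r.phi hf g + r.phi hf h := by
  rcases Nat.eq_zero_or_pos (C.v g) with h0 | h0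
  · rw [C.v_zero g h0, zero_add, phi_zero, zero_add]
  rcases Nat.eq_zero_or_pos (C.v h) with h1 | h1
  · rw [C.v_zero h h1, add_zero, phi_zero, add_zero]
  exact le_antisymm (r.phi_add_le hf h0 h1) (r.phi_add_ge hf h0)

/-- The functional is nearly optimal at the starting point. -/
theorem phi_start (hf : r.Full) : r.phi hf (r.X 0) ≤ (1 + 1 / r.q 0) * C.T (r.X 0) := by
  have h1 : r.phi hf (r.X 0) ^ r.q 0 ≤ (1 + 1) * C.T (r.X 0) ^ r.q 0 := by
    refine le_of_tendsto' ((r.phi_lim hf (r.X 0)).pow (r.q 0)) (fun t => ?_)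
    have hb : C.Ball (r.X 0) (r.q 0) (r.X (t + 1)) :=
      r.ball_later (Nat.zero_le (t + 1)) (C.ball_self _ _)
    have h2 := C.ball_up (B := 1) (g := r.X 0) (A' := r.X (t + 1)) (p := r.q 0) (q := r.q 0)
      (by rw [C.v_one]) r.vX0 (by rw [one_mul]; exact hb) le_rfl
    rw [one_mul] at h2
    have h3 : C.rho (r.X (t + 1)) (r.X 0) ^ r.q 0 ≤
        (C.rho (r.X (t + 1)) (r.X 0) * C.T 1) ^ r.q 0 := by
      apply pow_le_pow_left₀ (C.rho_nonneg _ _)
      exact le_mul_of_one_le_right (C.rho_nonneg _ _) (C.T_pos 1 (by rw [C.v_one]))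
    linarith
  exact Co_root_le r.hq0 (C.T_nonneg _) (by norm_num) h1

end Run

end Pool.Agent.SD
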