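import Pool.Agent.H.MP_4f19f9_lc.SD.Iso
import Pool.Agent.H.MP_4f19f9_lc.SD.Cap
import Pool.Agent.SC.Basic

/-!
# The semiring of isomorphism classes of finite graphs
-/

namespace Pool.Agent.SD

open SimpleGraph Pool.Agent.SC

/-- A finite graph. -/
structure FG : Type 1 where
  V : Type
  fin : Finite V
  G : SimpleGraph V

instance fgSetoid : Setoid FG where
  r a b := Nonempty (a.G ≃g b.G)
  iseqv := ⟨fun _ => ⟨Iso.refl⟩, fun ⟨e⟩ => ⟨e.symm⟩, fun ⟨e⟩ ⟨f⟩ => ⟨e.trans f⟩⟩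

/-- Isomorphism classes of finite graphs. -/
def GC : Type 1 := Quotient fgSetoid

/-- The class of a graph. -/
def cl {V : Type} [h : Finite V] (G : SimpleGraph V) : GC := Quotient.mk fgSetoid ⟨V, h, G⟩

theorem cl_eq {V W : Type} [Finite V] [Finite W] {G : SimpleGraph V} {H : SimpleGraph W} :
    cl G = cl H ↔ Nonempty (G ≃g H) := by
  unfold cl
  exact Quotient.eq

theorem cl_ind {P : GC → Prop} (h : ∀ (V : Type) [Finite V] (G : SimpleGraph V), P (cl G))
    (x : GC) : P x := by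
  refine Quotient.inductionOn x ?_
  rintro ⟨V, hV, G⟩
  exact @h V hV G

/-- Disjoint union of classes. -/
def gadd : GC → GC → GC :=
  Quotient.map₂ (fun a b => ⟨a.V ⊕ b.V, by have := a.fin; have := b.fin; infer_instance,
    a.G ⊕g b.G⟩) (by
    rintro a a' ⟨e⟩ b b' ⟨f⟩
    exact iso_sum_congr e f)

/-- Strong product of classes. -/
def gmul : GC → GC → GC :=
  Quotient.map₂ (fun a b => ⟨a.V × b.V, by have := a.fin; have := b.fin; infer_instance,
    sprod a.G b.G⟩) (by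
    rintro a a' ⟨e⟩ b b' ⟨f⟩
    exact iso_sprod_congr e f)

instance : Zero GC := ⟨cl (⊥ : SimpleGraph PEmpty)⟩
instance : One GC := ⟨cl (⊥ : SimpleGraph PUnit)⟩
instance : Add GC := ⟨gadd⟩
instance : Mul GC := ⟨gmul⟩

private theorem Ring_rep (a : GC) : ∃ (V : Type) (_ : Finite V) (G : SimpleGraph V), a = cl G := by
  obtain ⟨⟨V, hV, G⟩, rfl⟩ := Quotient.exists_rep a
  exact ⟨V, hV, G, rfl⟩

private theorem Ring_add_comm (a b : GC) : a + b = b + a := by
  obtain ⟨V, _, G, rfl⟩ := Ring_rep a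
  obtain ⟨W, _, H, rfl⟩ := Ring_rep b
  exact cl_eq.2 ⟨Iso.sumComm (G := G) (H := H)⟩

private theorem Ring_mul_comm (a b : GC) : a * b = b * a := by
  obtain ⟨V, _, G, rfl⟩ := Ring_rep a
  obtain ⟨W, _, H, rfl⟩ := Ring_rep b
  exact cl_eq.2 (iso_sprod_comm G H)

private theorem Ring_add_assoc (a b c : GC) : a + b + c = a + (b + c) := by
  obtain ⟨V, _, G, rfl⟩ := Ring_rep a
  obtain ⟨W, _, H, rfl⟩ := Ring_rep b
  obtain ⟨U, _, K, rfl⟩ := Ring_rep c
  exact cl_eq.2 ⟨Iso.sumAssoc (G := G) (H := H) (I := K)⟩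

private theorem Ring_mul_assoc (a b c : GC) : a * b * c = a * (b * c) := by
  obtain ⟨V, _, G, rfl⟩ := Ring_rep a
  obtain ⟨W, _, H, rfl⟩ := Ring_rep b
  obtain ⟨U, _, K, rfl⟩ := Ring_rep c
  exact cl_eq.2 (iso_sprod_assoc G H K)

private theorem Ring_zero_add (a : GC) : 0 + a = a := by
  obtain ⟨V, _, G, rfl⟩ := Ring_rep a
  exact cl_eq.2 (iso_zero_sum G)

private theorem Ring_one_mul (a : GC) : 1 * a = a := by
  obtain ⟨V, _, G, rfl⟩ := Ring_rep a
  exact cl_eq.2 (iso_one_sprod G)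

private theorem Ring_zero_mul (a : GC) : 0 * a = 0 := by
  obtain ⟨V, _, G, rfl⟩ := Ring_rep a
  exact cl_eq.2 (iso_zero_sprod G)

private theorem Ring_distrib (a b c : GC) : a * (b + c) = a * b + a * c := by
  obtain ⟨V, _, G, rfl⟩ := Ring_rep a
  obtain ⟨W, _, H, rfl⟩ := Ring_rep b
  obtain ⟨U, _, K, rfl⟩ := Ring_rep c
  exact cl_eq.2 (iso_distrib G H K)

instance : CommSemiring GC where
  nsmul := nsmulRec
  add_assoc := Ring_add_assoc
  zero_add := Ring_zero_add
  add_zero a := by rw [Ring_add_comm, Ring_zero_add]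
  add_comm := Ring_add_comm
  left_distrib := Ring_distrib
  right_distrib a b c := by
    rw [Ring_mul_comm, Ring_distrib, Ring_mul_comm c a, Ring_mul_comm c b]
  zero_mul := Ring_zero_mul
  mul_zero a := by rw [Ring_mul_comm, Ring_zero_mul]
  mul_assoc := Ring_mul_assoc
  one_mul := Ring_one_mul
  mul_one a := by rw [Ring_mul_comm, Ring_one_mul]
  mul_comm := Ring_mul_comm

variable {V W : Type} [Finite V] [Finite W]

theorem cl_add (G : SimpleGraph V) (H : SimpleGraph W) : cl G + cl H = cl (G ⊕g H) := rfl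

theorem cl_mul (G : SimpleGraph V) (H : SimpleGraph W) : cl G * cl H = cl (sprod G H) := rfl

theorem cl_one : (1 : GC) = cl (⊥ : SimpleGraph PUnit) := rfl

theorem cl_zero : (0 : GC) = cl (⊥ : SimpleGraph PEmpty) := rfl

/-- Edgeless graphs on sets of the same size are isomorphic. -/
theorem Ring_bot {α β : Type} (e : α ≃ β) :
    Nonempty ((⊥ : SimpleGraph α) ≃g (⊥ : SimpleGraph β)) :=
  ⟨⟨e, by intro x y; simp⟩⟩

/-- A disjoint union of edgeless graphs is edgeless. -/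
theorem Ring_bot_sum {α β γ : Type} (e : α ⊕ β ≃ γ) :
    Nonempty ((⊥ : SimpleGraph α) ⊕g (⊥ : SimpleGraph β) ≃g (⊥ : SimpleGraph γ)) := by
  refine ⟨⟨e, ?_⟩⟩
  rintro (x | x) (y | y) <;> simp

theorem cl_nat (n : ℕ) : ((n : ℕ) : GC) = cl (⊥ : SimpleGraph (Fin n)) := by
  induction n with
  | zero =>
    rw [Nat.cast_zero, cl_zero, cl_eq]
    exact Ring_bot (Equiv.equivOfIsEmpty _ _)
  | succ n ih =>
    rw [Nat.cast_succ, ih, cl_one, cl_add, cl_eq]
    exact Ring_bot_sum ((Equiv.sumCongr (Equiv.refl _) (Equiv.equivPUnit (Fin 1)).symm).trans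
      finSumFinEquiv)

/-- Words are equal or adjacent when they are so in every coordinate. -/
theorem Ring_spow_ea {α ι : Type*} {G : SimpleGraph α} {x y : ι → α} :
    (x = y ∨ (spow G ι).Adj x y) ↔ ∀ i, x i = y i ∨ G.Adj (x i) (y i) := by
  constructor
  · rintro (rfl | h)
    · exact fun i => Or.inl rfl
    · exact h.2
  · intro h
    by_cases hxy : x = y
    · exact Or.inl hxy
    · exact Or.inr ⟨hxy, h⟩

/-- Powers are strong powers. -/
theorem cl_pow (G : SimpleGraph V) (n : ℕ) : cl G ^ n = cl (spow G (Fin n)) := by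
  induction n with
  | zero =>
    rw [pow_zero, cl_one, cl_eq]
    refine ⟨isoOf (Equiv.ofUnique PUnit (Fin 0 → V)) fun x y => ?_⟩
    constructor
    · exact fun _ => Or.inl rfl
    · exact fun _ => Or.inl (Subsingleton.elim _ _)
  | succ n ih =>
    rw [pow_succ', ih, cl_mul, cl_eq]
    refine ⟨isoOf (Fin.consEquiv fun _ : Fin (n + 1) => V) fun x y => ?_⟩
    rw [Ring_spow_ea, sprod_ea, Ring_spow_ea, Fin.forall_fin_succ]
    rfl

end Pool.Agent.SD
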