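import Pool.Agent.H.MP_4f19f9_lc.SD.Defs
import Pool.Agent.SC.Rate

/-!
# Search, integer approximations of the capacity, comparison of capacities
-/

namespace Pool.Agent.SD

open SimpleGraph Pool.Agent.SC

variable {α : Type*} [Primcodable α]

/-- Search for a computable relation (same proof as Pool.Agent.SC.exists_computable_choice). -/
theorem exists_choice {δ : Type*} [Primcodable δ] [Inhabited δ]
    {R : α → δ → Prop} (hR : ComputablePred (fun x : α × δ => R x.1 x.2))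
    (hex : ∀ a, ∃ d, R a d) :
    ∃ f : α → δ, Computable f ∧ ∀ a, R a (f a) := by
  classical
  have hP : ComputablePred (fun x : α × ℕ =>
      (Option.casesOn (Encodable.decode (α := δ) x.2) false
        (fun d => decide (R x.1 d)) : Bool) = true) := by
    refine Computable.computablePred ?_
    have h1 : Computable (fun y : (α × ℕ) × δ => (y.1.1, y.2)) :=
      (Primrec.pair (Primrec.fst.comp Primrec.fst) Primrec.snd).to_comp
    have h2 : Computable₂ (fun (x : α × ℕ) (d : δ) => decide (R x.1 d)) := hR.decide.comp h1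
    have h3 : Computable (fun x : α × ℕ =>
        (Option.casesOn (Encodable.decode (α := δ) x.2) false
          (fun d => decide (R x.1 d)) : Bool)) :=
      Computable.option_casesOn (Computable.decode.comp Computable.snd)
        (Computable.const false) h2
    exact h3.of_eq (fun x => Bool.decide_eq_true.symm)
  have hex' : ∀ a, ∃ n : ℕ, (Option.casesOn (Encodable.decode (α := δ) n) false
      (fun d => decide (R a d)) : Bool) = true := by
    intro a
    obtain ⟨d, hd⟩ := hex a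
    refine ⟨Encodable.encode d, ?_⟩
    rw [Encodable.encodek]
    simpa using hd
  have h := Computable.find (P := fun a n => (Option.casesOn (Encodable.decode (α := δ) n) false
      (fun d => decide (R a d)) : Bool) = true) hP hex'
  refine ⟨fun a => ((Encodable.decode (α := δ) (Nat.find (hex' a))).getD default),
    (Primrec.option_getD_default.to_comp.comp (Computable.decode.comp h)), fun a => ?_⟩
  have h2 := Nat.find_spec (hex' a)
  rcases h3 : Encodable.decode (α := δ) (Nat.find (hex' a)) with - | d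
  · rw [h3] at h2
    simp at h2
  · rw [h3] at h2
    change R a ((Encodable.decode (α := δ) (Nat.find (hex' a))).getD default)
    rw [h3]
    simpa using h2

/-- Integer approximations: A (c, k) = floor of 2^k * (the rational for k + 1). -/
theorem int_approx (h : ThetaComputable) :
    ∃ A : Code × ℕ → ℕ, Computable A ∧
      ∀ (c : Code) (k : ℕ), |(A (c, k) : ℝ) - 2 ^ k * theta (gr c)| ≤ 2 := by
  obtain ⟨f, hf, hfa⟩ := h
  refine ⟨fun x => (f (x.1, x.2 + 1)).1 * 2 ^ x.2 / ((f (x.1, x.2 + 1)).2 + 1), ?_, ?_⟩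
  · have hp : Primrec (fun y : (ℕ × ℕ) × ℕ => y.1.1 * 2 ^ y.2 / (y.1.2 + 1)) := by
      refine Primrec.nat_div.comp (Primrec.nat_mul.comp (Primrec.fst.comp Primrec.fst)
        (pr_pow.comp (Primrec.const 2) Primrec.snd)) (Primrec.succ.comp ?_)
      exact Primrec.snd.comp Primrec.fst
    have hc : Computable (fun x : Code × ℕ => (f (x.1, x.2 + 1), x.2)) := by
      refine Computable.pair (hf.comp ?_) Computable.snd
      exact (Primrec.pair Primrec.fst (Primrec.succ.comp Primrec.snd)).to_comp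
    exact hp.to_comp.comp hc
  · intro c k
    beta_reduce
    have h1 := hfa c (k + 1)
    obtain ⟨a, ha⟩ : ∃ a, a = (f (c, k + 1)).1 := ⟨_, rfl⟩
    obtain ⟨b, hb⟩ : ∃ b, b = (f (c, k + 1)).2 := ⟨_, rfl⟩
    rw [← ha, ← hb] at h1
    change |(((f (c, k + 1)).1 * 2 ^ k / ((f (c, k + 1)).2 + 1) : ℕ) : ℝ) - 2 ^ k * theta (gr c)|
      ≤ 2
    rw [← ha, ← hb]
    obtain ⟨d, hd⟩ : ∃ d, d = a * 2 ^ k / (b + 1) := ⟨_, rfl⟩
    rw [← hd]
    have hb0 : (0 : ℝ) < (b : ℝ) + 1 := by positivity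
    have h2 : d * (b + 1) ≤ a * 2 ^ k := by
      rw [hd]
      exact Nat.div_mul_le_self _ _
    have h3 : a * 2 ^ k < (d + 1) * (b + 1) := by
      have h4 := Nat.lt_div_mul_add (a := a * 2 ^ k) (Nat.succ_pos b)
      rw [← hd] at h4
      have h5 : (d + 1) * (b + 1) = d * (b + 1) + (b + 1) := by ring
      rw [h5]
      exact h4
    have h2' : (d : ℝ) ≤ 2 ^ k * ((a : ℝ) / ((b : ℝ) + 1)) := by
      have h4 : (d : ℝ) * ((b : ℝ) + 1) ≤ (a : ℝ) * 2 ^ k := by exact_mod_cast h2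
      rw [← mul_div_assoc, le_div_iff₀ hb0]
      linarith
    have h3' : 2 ^ k * ((a : ℝ) / ((b : ℝ) + 1)) < (d : ℝ) + 1 := by
      have h4 : (a : ℝ) * 2 ^ k < ((d : ℝ) + 1) * ((b : ℝ) + 1) := by exact_mod_cast h3
      rw [← mul_div_assoc, div_lt_iff₀ hb0]
      linarith
    have h6 : (2 : ℝ) ^ k * (1 / 2 ^ (k + 1)) = 1 / 2 := by
      rw [pow_succ]
      field_simp
    have h7 : (0 : ℝ) < 2 ^ k := by positivity
    have h8 := mul_le_mul_of_nonneg_left (abs_le.1 h1).1 h7.le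
    have h9 := mul_le_mul_of_nonneg_left (abs_le.1 h1).2 h7.le
    rw [mul_neg, h6, mul_sub] at h8
    rw [h6, mul_sub] at h9
    rw [abs_le]
    constructor <;> linarith

theorem Se_tendsto {N : ℕ → ℕ} {t : ℝ} (h : ∀ k, |(N k : ℝ) - 2 ^ k * t| ≤ 4) :
    Filter.Tendsto (fun k => (N k : ℝ) / 2 ^ k) Filter.atTop (nhds t) := by
  have h0 : Filter.Tendsto (fun k : ℕ => 4 * (1 / 2 : ℝ) ^ k) Filter.atTop (nhds 0) := by
    have h1 := (tendsto_pow_atTop_nhds_zero_of_lt_one (r := (1 / 2 : ℝ)) (by norm_num)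
      (by norm_num)).const_mul 4
    rwa [mul_zero] at h1
  rw [tendsto_iff_dist_tendsto_zero]
  refine squeeze_zero (fun k => dist_nonneg) (fun k => ?_) h0
  have h7 : (0 : ℝ) < 2 ^ k := by positivity
  have h2 : (N k : ℝ) / 2 ^ k - t = ((N k : ℝ) - 2 ^ k * t) / 2 ^ k := by
    field_simp
  rw [Real.dist_eq, h2, abs_div, abs_of_pos h7, div_pow, one_pow, mul_one_div]
  exact div_le_div_of_nonneg_right (h k) h7.le

theorem Se_lower {n : ℕ} {k : ℕ} {t : ℝ} (ht : 0 ≤ t) (h : |(n : ℝ) - 2 ^ k * t| ≤ 2) :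
    ((n - 2 : ℕ) : ℝ) ≤ 2 ^ k * t ∧ |((n - 2 : ℕ) : ℝ) - 2 ^ k * t| ≤ 4 := by
  have h0 : (0 : ℝ) ≤ 2 ^ k * t := by positivity
  have h1 := abs_le.1 h
  rcases Nat.lt_or_ge n 2 with h2 | h2
  · have h3 : n - 2 = 0 := by omega
    have h4 : (n : ℝ) < 2 := by exact_mod_cast h2
    rw [h3, Nat.cast_zero, zero_sub, abs_neg, abs_of_nonneg h0]
    exact ⟨h0, by linarith⟩
  · rw [Nat.cast_sub h2]
    push_cast
    refine ⟨by linarith, ?_⟩
    rw [abs_le]
    constructor <;> linarith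

/-- The comparison is recursively enumerable: some k has
(A(a,k) + 2)^(2p) < 2 * ((A(b,k) - 2) * (A(c,k) - 2))^p (truncated subtraction). -/
theorem re_cmp (h : ThetaComputable) :
    REPred (fun x : (Code × Code × Code) × ℕ =>
      theta (gr x.1.1) ^ (2 * x.2) < 2 * (theta (gr x.1.2.1) * theta (gr x.1.2.2)) ^ x.2) := by
  obtain ⟨A, hA, hAa⟩ := int_approx h
  have hD : ComputablePred (fun x : ((Code × Code × Code) × ℕ) × ℕ =>
      (A (x.1.1.1, x.2) + 2) ^ (2 * x.1.2) <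
        2 * ((A (x.1.1.2.1, x.2) - 2) * (A (x.1.1.2.2, x.2) - 2)) ^ x.1.2) := by
    have hp : PrimrecPred (fun y : (ℕ × ℕ × ℕ) × ℕ =>
        (y.1.1 + 2) ^ (2 * y.2) < 2 * ((y.1.2.1 - 2) * (y.1.2.2 - 2)) ^ y.2) := by
      have a1 : Primrec (fun y : (ℕ × ℕ × ℕ) × ℕ => y.1.1 + 2) :=
        Primrec.nat_add.comp (Primrec.fst.comp Primrec.fst) (Primrec.const 2)
      have a2 : Primrec (fun y : (ℕ × ℕ × ℕ) × ℕ => y.1.2.1 - 2) :=
        Primrec.nat_sub.comp (Primrec.fst.comp (Primrec.snd.comp Primrec.fst)) (Primrec.const 2)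
      have a3 : Primrec (fun y : (ℕ × ℕ × ℕ) × ℕ => y.1.2.2 - 2) :=
        Primrec.nat_sub.comp (Primrec.snd.comp (Primrec.snd.comp Primrec.fst)) (Primrec.const 2)
      have a4 : Primrec (fun y : (ℕ × ℕ × ℕ) × ℕ => 2 * y.2) :=
        Primrec.nat_mul.comp (Primrec.const 2) Primrec.snd
      exact pp_lt (pr_pow.comp a1 a4) (Primrec.nat_mul.comp (Primrec.const 2)
        (pr_pow.comp (Primrec.nat_mul.comp a2 a3) Primrec.snd))
    have hc : Computable (fun x : ((Code × Code × Code) × ℕ) × ℕ =>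
        ((A (x.1.1.1, x.2), A (x.1.1.2.1, x.2), A (x.1.1.2.2, x.2)), x.1.2)) := by
      refine Computable.pair (Computable.pair (hA.comp ?_) (Computable.pair (hA.comp ?_)
        (hA.comp ?_))) ?_
      · exact (Primrec.pair (Primrec.fst.comp (Primrec.fst.comp Primrec.fst))
          Primrec.snd).to_comp
      · exact (Primrec.pair (Primrec.fst.comp (Primrec.snd.comp
          (Primrec.fst.comp Primrec.fst))) Primrec.snd).to_comp
      · exact (Primrec.pair (Primrec.snd.comp (Primrec.snd.comp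
          (Primrec.fst.comp Primrec.fst))) Primrec.snd).to_comp
      · exact (Primrec.snd.comp Primrec.fst).to_comp
    exact cp_comp hp hc
  refine (re_exists (D := fun (x : (Code × Code × Code) × ℕ) k =>
      (A (x.1.1, k) + 2) ^ (2 * x.2) <
        2 * ((A (x.1.2.1, k) - 2) * (A (x.1.2.2, k) - 2)) ^ x.2) hD).of_eq ?_
  rintro ⟨⟨a, b, c⟩, p⟩
  change (∃ k, (A (a, k) + 2) ^ (2 * p) < 2 * ((A (b, k) - 2) * (A (c, k) - 2)) ^ p) ↔
    theta (gr a) ^ (2 * p) < 2 * (theta (gr b) * theta (gr c)) ^ p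
  have ha := theta_nonneg (gr a)
  have hb := theta_nonneg (gr b)
  have hc := theta_nonneg (gr c)
  constructor
  · rintro ⟨k, hk⟩
    have hk' : ((A (a, k) : ℝ) + 2) ^ (2 * p) <
        2 * (((A (b, k) - 2 : ℕ) : ℝ) * ((A (c, k) - 2 : ℕ) : ℝ)) ^ p := by exact_mod_cast hk
    have h7 : (0 : ℝ) < 2 ^ k := by positivity
    have h1 : (2 ^ k * theta (gr a)) ^ (2 * p) ≤ ((A (a, k) : ℝ) + 2) ^ (2 * p) := by
      refine pow_le_pow_left₀ (by positivity) ?_ _
      have := (abs_le.1 (hAa a k)).1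
      linarith
    have h2 : (((A (b, k) - 2 : ℕ) : ℝ) * ((A (c, k) - 2 : ℕ) : ℝ)) ^ p ≤
        ((2 ^ k * theta (gr b)) * (2 ^ k * theta (gr c))) ^ p := by
      refine pow_le_pow_left₀ (by positivity) ?_ _
      exact mul_le_mul (Se_lower hb (hAa b k)).1 (Se_lower hc (hAa c k)).1 (by positivity)
        (by positivity)
    have h3 : ((2 ^ k * theta (gr b)) * (2 ^ k * theta (gr c))) ^ p =
        (2 ^ k) ^ (2 * p) * (theta (gr b) * theta (gr c)) ^ p := by
      rw [pow_mul, ← mul_pow]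
      congr 1
      ring
    rw [mul_pow] at h1
    rw [h3] at h2
    have h4 : (2 ^ k : ℝ) ^ (2 * p) * theta (gr a) ^ (2 * p) <
        (2 ^ k) ^ (2 * p) * (2 * (theta (gr b) * theta (gr c)) ^ p) := by linarith
    exact lt_of_mul_lt_mul_left h4 (by positivity)
  · intro h
    have ta : Filter.Tendsto (fun k => ((A (a, k) + 2 : ℕ) : ℝ) / 2 ^ k) Filter.atTop
        (nhds (theta (gr a))) := by
      refine Se_tendsto (N := fun k => A (a, k) + 2) (fun k => ?_)
      have := abs_le.1 (hAa a k)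
      push_cast
      rw [abs_le]
      constructor <;> linarith
    have tb : Filter.Tendsto (fun k => ((A (b, k) - 2 : ℕ) : ℝ) / 2 ^ k) Filter.atTop
        (nhds (theta (gr b))) :=
      Se_tendsto (N := fun k => A (b, k) - 2) (fun k => (Se_lower hb (hAa b k)).2)
    have tc : Filter.Tendsto (fun k => ((A (c, k) - 2 : ℕ) : ℝ) / 2 ^ k) Filter.atTop
        (nhds (theta (gr c))) :=
      Se_tendsto (N := fun k => A (c, k) - 2) (fun k => (Se_lower hc (hAa c k)).2)
    obtain ⟨k, hk⟩ := ((ta.pow (2 * p)).eventually_lt (((tb.mul tc).pow p).const_mul 2) h).exists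
    refine ⟨k, ?_⟩
    have h7 : (0 : ℝ) < (2 ^ k) ^ (2 * p) := by positivity
    have h3 : ((((A (b, k) - 2 : ℕ) : ℝ) / 2 ^ k) * (((A (c, k) - 2 : ℕ) : ℝ) / 2 ^ k)) ^ p =
        (((A (b, k) - 2 : ℕ) : ℝ) * ((A (c, k) - 2 : ℕ) : ℝ)) ^ p / (2 ^ k) ^ (2 * p) := by
      rw [div_mul_div_comm, div_pow, pow_mul ((2 : ℝ) ^ k), pow_two ((2 : ℝ) ^ k)]
    rw [h3, div_pow, ← mul_div_assoc, div_lt_div_iff_of_pos_right h7] at hk
    exact_mod_cast hk

/-- Quotients: a rational approximation of Θ(a)/Θ(b) when Θ(b) ≥ 1 and Θ(a) ≤ v Θ(b). -/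
theorem quot_approx {A B : ℕ} {x y : ℝ} {v k K : ℕ} (hK : k + v + 4 ≤ K) (hx : 0 ≤ x)
    (hy : 1 ≤ y) (hxy : x ≤ v * y) (hA : |(A : ℝ) - 2 ^ K * x| ≤ 2)
    (hB : |(B : ℝ) - 2 ^ K * y| ≤ 2) :
    |(A : ℝ) / (((B - 1 : ℕ) : ℝ) + 1) - x / y| ≤ 1 / 2 ^ (k + 1) := by
  have hA' := abs_le.1 hA
  have hB' := abs_le.1 hB
  have hk1 : (1 : ℝ) ≤ 2 ^ k := one_le_pow₀ (by norm_num)
  have hv : (v : ℝ) + 1 ≤ 2 ^ v := by exact_mod_cast Nat.lt_two_pow_self
  have hKp : 16 * (2 ^ k * ((v : ℝ) + 1)) ≤ 2 ^ K := by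
    calc 16 * (2 ^ k * ((v : ℝ) + 1)) ≤ 16 * (2 ^ k * 2 ^ v) := by
          have := mul_le_mul_of_nonneg_left hv (by positivity : (0 : ℝ) ≤ 2 ^ k)
          linarith
      _ = 2 ^ (k + v + 4) := by ring
      _ ≤ 2 ^ K := pow_le_pow_right₀ (by norm_num) hK
  have hv0 : (0 : ℝ) ≤ (v : ℝ) := Nat.cast_nonneg v
  have h16 : (1 : ℝ) ≤ 2 ^ k * ((v : ℝ) + 1) := by nlinarith
  have hKy : (2 : ℝ) ^ K ≤ 2 ^ K * y := le_mul_of_one_le_right (by positivity) hy
  have hBr : (2 : ℝ) ^ K - 2 ≤ B := by linarith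
  have hBpos : (0 : ℝ) < B := by linarith
  have hB1 : 1 ≤ B := by
    have : 0 < B := by exact_mod_cast hBpos
    omega
  have e1 : (((B - 1 : ℕ) : ℝ) + 1) = B := by
    rw [Nat.cast_sub hB1, Nat.cast_one, sub_add_cancel]
  rw [e1]
  have hy0 : (0 : ℝ) < y := by linarith
  have e2 : (A : ℝ) / B - x / y = (((A : ℝ) - 2 ^ K * x) * y - ((B : ℝ) - 2 ^ K * y) * x) /
      (B * y) := by
    field_simp
    ring
  have hBy : (0 : ℝ) < B * y := mul_pos hBpos hy0
  rw [e2, abs_div, abs_of_pos hBy, div_le_iff₀ hBy]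
  have h1 : |((A : ℝ) - 2 ^ K * x) * y - ((B : ℝ) - 2 ^ K * y) * x| ≤ 2 * ((v : ℝ) + 1) * y := by
    refine (abs_sub _ _).trans ?_
    rw [abs_mul, abs_mul, abs_of_pos hy0, abs_of_nonneg hx]
    have a1 := mul_le_mul_of_nonneg_right hA hy0.le
    have a2 := mul_le_mul_of_nonneg_right hB hx
    nlinarith
  refine h1.trans ?_
  have h2 : 2 * ((v : ℝ) + 1) * 2 ^ (k + 1) ≤ B := by
    rw [pow_succ]
    nlinarith
  have h3 : (0 : ℝ) < 2 ^ (k + 1) := by positivity
  rw [one_div, ← div_eq_inv_mul, le_div_iff₀ h3]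
  nlinarith

end Pool.Agent.SD
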