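import Pool.Agent.H.MP_4f19f9_lc.SD.State

/-!
# The run and its functional
-/

namespace Pool.Agent.SD

open SimpleGraph Pool.Agent.SC

section
variable {J : (Code × Code) × (ℕ × ℕ) → ℕ}
  (hJ : ∀ (x g : Code) (m p : ℕ), 1 ≤ x.1 → 1 ≤ g.1 → 1 ≤ p →
    J ((x, g), (m, p)) < p * g.1 ∧ Good x g m p (J ((x, g), (m, p))))
include hJ

theorem St_pos (i : Code × ℕ) (s : ℕ) : 1 ≤ (St J i s).1 := by
  induction s with
  | zero => exact fx_pos _
  | succ s ih =>
    rw [St_succ, mulc_fst, pw_fst, pw_fst]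
    exact Nat.mul_pos (Nat.pow_pos ih) (Nat.pow_pos (dir_pos s))

/-- The run. -/
noncomputable def theRun (i : Code × ℕ) : Run capGC where
  X s := nm (St J i s)
  Z s := nm (dir s) ^ (J ((St J i s, dir s), (mm i s, s + 1)) + 1)
  m := mm i
  p s := s + 1
  q := qq i
  vX0 := by
    change 1 ≤ gvv (nm (St J i 0))
    rw [gvv_nm]
    exact St_pos hJ i 0
  vZ s := by
    refine capGC.v_pos_pow ?_ _
    change 1 ≤ gvv (nm (dir s))
    rw [gvv_nm]
    exact dir_pos s
  hX s := by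
    rw [St_succ, nm_mulc, nm_pw, nm_pw]
  hp s := le_rfl
  hpq s := by
    have h1 : s + 1 ≤ 2 ^ (s + 1) := Nat.lt_two_pow_self.le
    have h2 : 1 ≤ (fx i.1).1 * 2 ^ i.2 := Nat.mul_pos (fx_pos _) (by positivity)
    unfold qq
    calc s + 1 ≤ 1 * 2 ^ (s + 1) := by rw [one_mul]; exact h1
      _ ≤ (fx i.1).1 * 2 ^ i.2 * 2 ^ (s + 1) := Nat.mul_le_mul_right _ h2
  hq s := by
    unfold qq
    rw [pow_succ]
    apply le_of_eq
    ring
  hq0 := qq_pos i 0
  hm s := by
    unfold mm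
    exact Nat.le_mul_of_pos_right _ (Nat.pow_pos (dir_pos s))
  hZ s := by
    have h1 := (hJ (St J i s) (dir s) (mm i s) (s + 1) (St_pos hJ i s) (dir_pos s)
      (Nat.succ_pos s)).1
    rw [capGC.v_pow]
    change (gvv (nm (dir s)) ^ _) ^ _ ≤ _
    rw [gvv_nm]
    set v := (dir s).1 with hv
    set j := J ((St J i s, dir s), (mm i s, s + 1)) with hj
    calc (v ^ (j + 1)) ^ (2 * qq i s) = v ^ ((j + 1) * (2 * qq i s)) := (pow_mul _ _ _).symm
      _ ≤ (2 ^ v) ^ ((j + 1) * (2 * qq i s)) :=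
          Nat.pow_le_pow_left Nat.lt_two_pow_self.le _
      _ = 2 ^ (v * ((j + 1) * (2 * qq i s))) := (pow_mul _ _ _).symm
      _ ≤ 2 ^ (mm i s) := by
          apply Nat.pow_le_pow_right (by norm_num)
          unfold mm
          rw [← hv]
          calc v * ((j + 1) * (2 * qq i s)) ≤ v * (((s + 1) * v) * (2 * qq i s)) :=
                Nat.mul_le_mul_left _ (Nat.mul_le_mul_right _ h1)
            _ = 2 * qq i s * (s + 1) * v ^ 2 := by ring

theorem theRun_visit (i : Code × ℕ) (s : ℕ) : (theRun hJ i).Visit s (nm (dir s)) := by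
  have h1 := (hJ (St J i s) (dir s) (mm i s) (s + 1) (St_pos hJ i s) (dir_pos s)
      (Nat.succ_pos s)).2
  unfold Good at h1
  rw [gT_step, gT_step, gT_step] at h1
  have hg : 1 ≤ capGC.v (nm (dir s)) := by
    change 1 ≤ gvv (nm (dir s))
    rw [gvv_nm]
    exact dir_pos s
  have hX : 1 ≤ capGC.v (nm (St J i s)) := by
    change 1 ≤ gvv (nm (St J i s))
    rw [gvv_nm]
    exact St_pos hJ i s
  refine ⟨hg, nm (St J i s) ^ mm i s * nm (dir s) ^ J ((St J i s, dir s), (mm i s, s + 1)),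
    capGC.v_pos_mul (capGC.v_pos_pow hX _) (capGC.v_pos_pow hg _), ?_, ?_⟩
  · change nm (St J i (s + 1)) = _
    rw [St_succ, nm_mulc, nm_pw, nm_pw, pow_succ, mul_assoc]
  · have e1 : nm (St J i s) ^ mm i s * nm (dir s) ^ J ((St J i s, dir s), (mm i s, s + 1)) *
        nm (dir s) = nm (St J i s) ^ mm i s *
          nm (dir s) ^ (J ((St J i s, dir s), (mm i s, s + 1)) + 1) := by ring
    have e2 : nm (St J i s) ^ mm i s *
          nm (dir s) ^ (J ((St J i s, dir s), (mm i s, s + 1)) + 1) * nm (dir s) =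
        nm (St J i s) ^ mm i s *
          nm (dir s) ^ (J ((St J i s, dir s), (mm i s, s + 1)) + 2) := by ring
    rw [e1, e2]
    exact h1.le

theorem theRun_full (i : Code × ℕ) : (theRun hJ i).Full := by
  intro g hg N
  obtain ⟨c, rfl⟩ := nm_surj g
  have hc : 1 ≤ c.1 := by
    change 1 ≤ gvv (nm c) at hg
    rwa [gvv_nm] at hg
  refine ⟨Nat.pair (Encodable.encode c) N, Nat.right_le_pair _ _, ?_⟩
  have := theRun_visit hJ i (Nat.pair (Encodable.encode c) N)
  rwa [dir_pair hc] at this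

/-- The spectral point with index i. -/
noncomputable def sp (i : Code × ℕ) (c : Code) : ℝ := (theRun hJ i).phi (theRun_full hJ i) (nm c)

theorem sp_spectral (i : Code × ℕ) : IsSpectral (sp hJ i) where
  edgeless n := by
    unfold sp
    rw [nm_edgeless, Run.phi_nat]
  sum c d e h := by
    unfold sp
    rw [nm_eq_add.2 h, Run.phi_add]
  prod c d e h := by
    unfold sp
    rw [nm_eq_mul.2 h, Run.phi_mul]
  mono c d h := (theRun hJ i).phi_mono _ ((gle_cl _ _).2 h)

theorem theta_le_sp (i : Code × ℕ) (c : Code) : theta (gr c) ≤ sp hJ i c := by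
  rw [← gT_nm]
  exact (theRun hJ i).T_le_phi (theRun_full hJ i) (nm c)

theorem sp_le (c : Code) (e : ℕ) : sp hJ (c, e) c ≤ theta (gr c) + 1 / 2 ^ e := by
  rcases Nat.eq_zero_or_pos c.1 with h0 | h0
  · have h1 : nm c = 0 := by
      apply gvv_zero
      rw [gvv_nm, h0]
    have h2 : sp hJ (c, e) c = 0 := by
      unfold sp
      rw [h1, Run.phi_zero]
    rw [h2]
    have := theta_nonneg (gr c)
    positivity
  · have h1 := (theRun hJ (c, e)).phi_start (theRun_full hJ (c, e))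
    have hX : (theRun hJ (c, e)).X 0 = nm c := by
      change nm (fx c) = nm c
      rw [fx_of_pos h0]
    have hq : (theRun hJ (c, e)).q 0 = c.1 * 2 ^ e := by
      change qq (c, e) 0 = _
      unfold qq
      rw [fx_of_pos h0]
      simp
    rw [hX, hq] at h1
    change sp hJ (c, e) c ≤ (1 + 1 / ((c.1 * 2 ^ e : ℕ) : ℝ)) * gT (nm c) at h1
    rw [gT_nm] at h1
    have h2 : theta (gr c) ≤ c.1 := by
      have := gT_lip 1 (nm c)
      rw [one_mul, gT_nm, gvv_nm] at this
      refine le_trans this ?_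
      have h3 : gT 1 ≤ 1 := by
        have := Run.phi_one (theRun hJ (c, e)) (theRun_full hJ (c, e))
        rw [← this]
        exact (theRun hJ (c, e)).T_le_phi (theRun_full hJ (c, e)) 1
      have h4 : (0 : ℝ) ≤ c.1 := Nat.cast_nonneg _
      nlinarith
    have hc : (0 : ℝ) < c.1 := by exact_mod_cast h0
    have h3 : 1 / ((c.1 * 2 ^ e : ℕ) : ℝ) * theta (gr c) ≤ 1 / 2 ^ e := by
      push_cast
      calc 1 / ((c.1 : ℝ) * 2 ^ e) * theta (gr c) ≤ 1 / ((c.1 : ℝ) * 2 ^ e) * c.1 :=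
            mul_le_mul_of_nonneg_left h2 (by positivity)
        _ = 1 / 2 ^ e := by field_simp
    linarith

/-- The approximations. -/
theorem sp_approx {A : Code × ℕ → ℕ}
    (hA : ∀ (c : Code) (k : ℕ), |(A (c, k) : ℝ) - 2 ^ k * theta (gr c)| ≤ 2)
    (i : Code × ℕ) (c : Code) (k : ℕ) :
    |(A (mulc (St J i (Nat.pair (Encodable.encode c) (3 * c.1 * 2 ^ (k + 1)) + 1)) c,
        k + c.1 + 4) : ℝ) /
      (((A (St J i (Nat.pair (Encodable.encode c) (3 * c.1 * 2 ^ (k + 1)) + 1),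
        k + c.1 + 4) - 1 : ℕ) : ℝ) + 1) - sp hJ i c| ≤ 1 / 2 ^ k := by
  set s := Nat.pair (Encodable.encode c) (3 * c.1 * 2 ^ (k + 1)) with hs
  set X := St J i (s + 1) with hX
  have hXpos : 1 ≤ capGC.v (nm X) := by
    change 1 ≤ gvv (nm X)
    rw [gvv_nm]
    exact St_pos hJ i _
  have hy : 1 ≤ theta (gr X) := by
    rw [← gT_nm]
    exact capGC.T_pos _ hXpos
  have hxy : theta (gr (mulc X c)) ≤ (c.1 : ℝ) * theta (gr X) := by
    rw [← gT_nm, ← gT_nm, nm_mulc, ← gvv_nm c, mul_comm (gvv (nm c) : ℝ)]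
    exact gT_lip _ _
  have h1 := quot_approx (k := k) (v := c.1) (K := k + c.1 + 4) le_rfl
    (theta_nonneg (gr (mulc X c))) hy hxy (hA (mulc X c) (k + c.1 + 4)) (hA X (k + c.1 + 4))
  have hq : theta (gr (mulc X c)) / theta (gr X) = capGC.rho (nm X) (nm c) := by
    unfold Cap.rho
    change _ = gT (nm X * nm c) / gT (nm X)
    rw [← nm_mulc, gT_nm, gT_nm]
  have h2 : |sp hJ i c - theta (gr (mulc X c)) / theta (gr X)| ≤ 1 / 2 ^ (k + 1) := by
    rw [hq]
    rcases Nat.eq_zero_or_pos c.1 with h0 | h0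
    · have hv : gvv (nm c) = 0 := by rw [gvv_nm, h0]
      have h3 : capGC.rho (nm X) (nm c) = 0 := Run.rho_zero _ hXpos hv
      have h4 : sp hJ i c = 0 := by
        unfold sp
        rw [gvv_zero _ hv, Run.phi_zero]
      rw [h3, h4, sub_zero, abs_zero]
      positivity
    · have hv := theRun_visit hJ i s
      rw [hs, dir_pair h0, ← hs] at hv
      have h3 := (theRun hJ i).phi_visit (theRun_full hJ i) hv
      change |sp hJ i c - capGC.rho (nm X) (nm c)| ≤ 3 * (gvv (nm c) : ℝ) / ((s + 1 : ℕ) : ℝ) at h3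
      refine le_trans h3 ?_
      rw [gvv_nm, div_le_div_iff₀ (by positivity) (by positivity), one_mul]
      have h5 : 3 * c.1 * 2 ^ (k + 1) ≤ s + 1 := by
        have := Nat.right_le_pair (Encodable.encode c) (3 * c.1 * 2 ^ (k + 1))
        omega
      exact_mod_cast h5
  have e : (1 : ℝ) / 2 ^ k = 1 / 2 ^ (k + 1) + 1 / 2 ^ (k + 1) := by
    rw [pow_succ]
    field_simp
    norm_num
  rw [e]
  rw [abs_le] at h1 h2 ⊢
  constructor <;> linarith [h1.1, h1.2, h2.1, h2.2]

end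

end Pool.Agent.SD
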