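import Pool.Agent.H.MP_4f19f9_lc.SD.Step

/-!
# The recursion for the base points
-/

namespace Pool.Agent.SD

open SimpleGraph Pool.Agent.SC

/-- Radii. -/
def qq (i : Code × ℕ) (s : ℕ) : ℕ := (fx i.1).1 * 2 ^ i.2 * 2 ^ s

/-- Exponents. -/
def mm (i : Code × ℕ) (s : ℕ) : ℕ := 2 * qq i s * (s + 1) * (dir s).1 ^ 2

theorem qq_pos (i : Code × ℕ) (s : ℕ) : 1 ≤ qq i s :=
  Nat.mul_pos (Nat.mul_pos (fx_pos _) (by positivity)) (by positivity)

/-- The base points. -/
noncomputable def St (J : (Code × Code) × (ℕ × ℕ) → ℕ) (i : Code × ℕ) (s : ℕ) : Code :=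
  Nat.rec (fx i.1) (fun s x => mulc (pw x (mm i s)) (pw (dir s)
    (J ((x, dir s), (mm i s, s + 1)) + 1))) s

theorem St_succ (J : (Code × Code) × (ℕ × ℕ) → ℕ) (i : Code × ℕ) (s : ℕ) :
    St J i (s + 1) = mulc (pw (St J i s) (mm i s)) (pw (dir s)
      (J ((St J i s, dir s), (mm i s, s + 1)) + 1)) := rfl

theorem pr_mm {α : Type*} [Primcodable α] {fi : α → Code × ℕ} {fs : α → ℕ} (hi : Primrec fi)
    (hs : Primrec fs) : Primrec (fun a => mm (fi a) (fs a)) := by
  unfold mm qq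
  have h1 : Primrec (fun a => (fx (fi a).1).1) := Primrec.fst.comp (pr_fx (Primrec.fst.comp hi))
  have h2 : Primrec (fun a => 2 ^ (fi a).2) :=
    pr_pow.comp (Primrec.const 2) (Primrec.snd.comp hi)
  have h3 : Primrec (fun a => 2 ^ (fs a)) := pr_pow.comp (Primrec.const 2) hs
  have h4 : Primrec (fun a => (dir (fs a)).1 ^ 2) :=
    pr_pow.comp (Primrec.fst.comp (pr_dir.comp hs)) (Primrec.const 2)
  exact Primrec.nat_mul.comp (Primrec.nat_mul.comp (Primrec.nat_mul.comp (Primrec.const 2)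
    (Primrec.nat_mul.comp (Primrec.nat_mul.comp h1 h2) h3)) (Primrec.succ.comp hs)) h4

/-- One step. -/
noncomputable def stepF (J : (Code × Code) × (ℕ × ℕ) → ℕ) (i : Code × ℕ) (s : ℕ) (x : Code) :
    Code :=
  mulc (pw x (mm i s)) (pw (dir s) (J ((x, dir s), (mm i s, s + 1)) + 1))

theorem pr_two : Primrec (fun w : (Code × ℕ) × (Code × ℕ) =>
    mulc (pw w.1.1 w.1.2) (pw w.2.1 w.2.2)) :=
  pr_mulc (pr_pw (Primrec.fst.comp Primrec.fst) (Primrec.snd.comp Primrec.fst))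
    (pr_pw (Primrec.fst.comp Primrec.snd) (Primrec.snd.comp Primrec.snd))

attribute [local irreducible] mulc pw mm dir fx

theorem computable_stepF {J : (Code × Code) × (ℕ × ℕ) → ℕ} (hJ : Computable J) :
    Computable (fun w : (Code × ℕ) × (ℕ × Code) => stepF J w.1 w.2.1 w.2.2) := by
  have hx : Primrec (fun w : (Code × ℕ) × (ℕ × Code) => w.2.2) :=
    Primrec.snd.comp Primrec.snd
  have hs : Primrec (fun w : (Code × ℕ) × (ℕ × Code) => w.2.1) :=
    Primrec.fst.comp Primrec.snd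
  have hm : Primrec (fun w : (Code × ℕ) × (ℕ × Code) => mm w.1 w.2.1) :=
    pr_mm Primrec.fst hs
  have hd : Primrec (fun w : (Code × ℕ) × (ℕ × Code) => dir w.2.1) := pr_dir.comp hs
  have hq : Primrec (fun w : (Code × ℕ) × (ℕ × Code) =>
      ((w.2.2, dir w.2.1), (mm w.1 w.2.1, w.2.1 + 1))) :=
    Primrec.pair (Primrec.pair hx hd) (Primrec.pair hm (Primrec.succ.comp hs))
  have hj : Computable (fun w : (Code × ℕ) × (ℕ × Code) =>
      J ((w.2.2, dir w.2.1), (mm w.1 w.2.1, w.2.1 + 1))) := hJ.comp hq.to_comp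
  have hj1 : Computable (fun w : (Code × ℕ) × (ℕ × Code) =>
      J ((w.2.2, dir w.2.1), (mm w.1 w.2.1, w.2.1 + 1)) + 1) := Computable.succ.comp hj
  have hp : Computable (fun w : (Code × ℕ) × (ℕ × Code) =>
      (((w.2.2, mm w.1 w.2.1), (dir w.2.1, J ((w.2.2, dir w.2.1), (mm w.1 w.2.1, w.2.1 + 1)) + 1)) :
        (Code × ℕ) × (Code × ℕ))) :=
    Computable.pair (Primrec.pair hx hm).to_comp (Computable.pair hd.to_comp hj1)
  exact (pr_two.to_comp.comp hp).of_eq (fun w => rfl)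

theorem St_eq (J : (Code × Code) × (ℕ × ℕ) → ℕ) (i : Code × ℕ) (s : ℕ) :
    (Nat.rec (fx i.1) (fun s x => stepF J i s x) s : Code) = St J i s := rfl

attribute [local irreducible] stepF St

theorem computable_St {J : (Code × Code) × (ℕ × ℕ) → ℕ} (hJ : Computable J) :
    Computable (fun y : (Code × ℕ) × ℕ => St J y.1 y.2) := by
  have h2 : Computable (fun w : ((Code × ℕ) × ℕ) × (ℕ × Code) => (w.1.1, w.2)) :=
    Computable.pair (Computable.fst.comp Computable.fst) Computable.snd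
  have h1 : Computable₂ (fun (y : (Code × ℕ) × ℕ) (z : ℕ × Code) => stepF J y.1 z.1 z.2) :=
    ((computable_stepF hJ).comp h2).of_eq (fun w => rfl)
  have h3 : Computable (fun y : (Code × ℕ) × ℕ => fx y.1.1) :=
    (pr_fx (Primrec.fst.comp Primrec.fst)).to_comp
  have h4 := Computable.nat_rec (f := fun y : (Code × ℕ) × ℕ => y.2)
    (g := fun y : (Code × ℕ) × ℕ => fx y.1.1)
    (h := fun (y : (Code × ℕ) × ℕ) (z : ℕ × Code) => stepF J y.1 z.1 z.2)
    Computable.snd h3 h1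
  exact h4.of_eq (fun y => St_eq J y.1 y.2)

end Pool.Agent.SD
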