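import Pool.Agent.H.MP_4f19f9_lc.SD.Comp1
import Pool.Agent.H.MP_4f19f9_lc.SD.Search
import Pool.Agent.H.MP_4f19f9_lc.SD.Lim

/-!
# The algorithm
-/

namespace Pool.Agent.SD

open SimpleGraph Pool.Agent.SC

/-- The graph without vertices is replaced by the graph with one vertex. -/
def fx (c : Code) : Code := if c.1 = 0 then onec else c

theorem fx_pos (c : Code) : 1 ≤ (fx c).1 := by
  unfold fx
  split_ifs with h
  · exact le_rfl
  · omega

theorem fx_of_pos {c : Code} (h : 1 ≤ c.1) : fx c = c := by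
  unfold fx
  rw [if_neg (by omega)]

/-- The direction treated at stage s. -/
def dir (s : ℕ) : Code := fx ((Encodable.decode (α := Code) s.unpair.1).getD onec)

theorem dir_pos (s : ℕ) : 1 ≤ (dir s).1 := fx_pos _

theorem dir_pair {c : Code} (h : 1 ≤ c.1) (N : ℕ) : dir (Nat.pair (Encodable.encode c) N) = c := by
  unfold dir
  rw [Nat.unpair_pair, Encodable.encodek]
  exact fx_of_pos h

theorem pr_fx {α : Type*} [Primcodable α] {f : α → Code} (hf : Primrec f) :
    Primrec (fun a => fx (f a)) := by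
  unfold fx
  exact Primrec.ite (pp_eq (Primrec.fst.comp hf) (Primrec.const 0)) (Primrec.const onec) hf

theorem pr_dir : Primrec dir := by
  unfold dir
  refine pr_fx ?_
  exact Primrec.option_getD.comp (Primrec.decode.comp (Primrec.fst.comp Primrec.unpair))
    (Primrec.const onec)

/-- The comparison made in a step. -/
def Good (x g : Code) (m p j : ℕ) : Prop :=
  theta (gr (mulc (pw x m) (pw g (j + 1)))) ^ (2 * p) <
    2 * (theta (gr (mulc (pw x m) (pw g j))) * theta (gr (mulc (pw x m) (pw g (j + 2))))) ^ p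

theorem gT_step (x g : Code) (m j : ℕ) :
    theta (gr (mulc (pw x m) (pw g j))) = gT (nm x ^ m * nm g ^ j) := by
  rw [← gT_nm, nm_mulc, nm_pw, nm_pw]

theorem exists_good (x g : Code) (m p : ℕ) (hx : 1 ≤ x.1) (hg : 1 ≤ g.1) (hp : 1 ≤ p) :
    ∃ j < p * g.1, Good x g m p j := by
  have h := capGC.exists_gap (X := nm x ^ m) (g := nm g)
    (capGC.v_pos_pow (by change 1 ≤ gvv (nm x); rw [gvv_nm]; exact hx) m)
    (by change 1 ≤ gvv (nm g); rw [gvv_nm]; exact hg) hp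
  obtain ⟨j, hj, h⟩ := h
  refine ⟨j, ?_, ?_⟩
  · change j < p * gvv (nm g) at hj
    rwa [gvv_nm] at hj
  · unfold Good
    rw [gT_step, gT_step, gT_step]
    exact h

attribute [local irreducible] mulc pw

/-- A computable choice of the step. -/
theorem exists_J (h : ThetaComputable) :
    ∃ J : (Code × Code) × (ℕ × ℕ) → ℕ, Computable J ∧
      ∀ (x g : Code) (m p : ℕ), 1 ≤ x.1 → 1 ≤ g.1 → 1 ≤ p →
        J ((x, g), (m, p)) < p * g.1 ∧ Good x g m p (J ((x, g), (m, p))) := by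
  obtain ⟨Q, hQ, -, hQe⟩ := Staged.of_re (re_cmp h)
  let R : (Code × Code) × (ℕ × ℕ) → ℕ × ℕ → Prop := fun a d =>
    (a.1.1.1 = 0 ∨ a.1.2.1 = 0 ∨ a.2.2 = 0) ∨ (d.1 < a.2.2 * a.1.2.1 ∧
      Q ((mulc (pw a.1.1 a.2.1) (pw a.1.2 (d.1 + 1)), mulc (pw a.1.1 a.2.1) (pw a.1.2 d.1),
        mulc (pw a.1.1 a.2.1) (pw a.1.2 (d.1 + 2))), a.2.2) d.2)
  have hR : PrimrecPred (fun y : ((Code × Code) × (ℕ × ℕ)) × (ℕ × ℕ) => R y.1 y.2) := by
    have ax : Primrec (fun y : ((Code × Code) × (ℕ × ℕ)) × (ℕ × ℕ) => y.1.1.1) :=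
      Primrec.fst.comp (Primrec.fst.comp Primrec.fst)
    have ag : Primrec (fun y : ((Code × Code) × (ℕ × ℕ)) × (ℕ × ℕ) => y.1.1.2) :=
      Primrec.snd.comp (Primrec.fst.comp Primrec.fst)
    have am : Primrec (fun y : ((Code × Code) × (ℕ × ℕ)) × (ℕ × ℕ) => y.1.2.1) :=
      Primrec.fst.comp (Primrec.snd.comp Primrec.fst)
    have ap : Primrec (fun y : ((Code × Code) × (ℕ × ℕ)) × (ℕ × ℕ) => y.1.2.2) :=
      Primrec.snd.comp (Primrec.snd.comp Primrec.fst)
    have aj : Primrec (fun y : ((Code × Code) × (ℕ × ℕ)) × (ℕ × ℕ) => y.2.1) :=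
      Primrec.fst.comp Primrec.snd
    have at' : Primrec (fun y : ((Code × Code) × (ℕ × ℕ)) × (ℕ × ℕ) => y.2.2) :=
      Primrec.snd.comp Primrec.snd
    have b0 := pr_mulc (pr_pw ax am) (pr_pw ag aj)
    have b1 := pr_mulc (pr_pw ax am) (pr_pw ag (Primrec.succ.comp aj))
    have b2 := pr_mulc (pr_pw ax am) (pr_pw ag (Primrec.succ.comp (Primrec.succ.comp aj)))
    refine PrimrecPred.or (PrimrecPred.or (pp_eq (Primrec.fst.comp ax) (Primrec.const 0))
      (PrimrecPred.or (pp_eq (Primrec.fst.comp ag) (Primrec.const 0))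
        (pp_eq ap (Primrec.const 0))))
      (PrimrecPred.and (pp_lt aj (Primrec.nat_mul.comp ap (Primrec.fst.comp ag))) ?_)
    exact PrimrecRel.comp hQ (Primrec.pair (Primrec.pair b1 (Primrec.pair b0 b2)) ap) at'
  have hex : ∀ a, ∃ d, R a d := by
    rintro ⟨⟨x, g⟩, ⟨m, p⟩⟩
    by_cases h0 : x.1 = 0 ∨ g.1 = 0 ∨ p = 0
    · exact ⟨(0, 0), Or.inl h0⟩
    · push Not at h0
      obtain ⟨j, hj, hgood⟩ := exists_good x g m p (by omega) (by omega) (by omega)
      obtain ⟨t, ht⟩ := (hQe ((mulc (pw x m) (pw g (j + 1)), mulc (pw x m) (pw g j),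
        mulc (pw x m) (pw g (j + 2))), p)).1 hgood
      exact ⟨(j, t), Or.inr ⟨hj, ht⟩⟩
  obtain ⟨f, hf, hfR⟩ := exists_computable_choice hR hex
  refine ⟨fun a => (f a).1, Computable.fst.comp hf, fun x g m p hx hg hp => ?_⟩
  rcases hfR ((x, g), (m, p)) with h1 | ⟨h1, h2⟩
  · exfalso
    rcases h1 with h1 | h1 | h1
    · change x.1 = 0 at h1
      omega
    · change g.1 = 0 at h1
      omega
    · change p = 0 at h1
      omega
  · refine ⟨h1, ?_⟩
    have h3 := (hQe ((mulc (pw x m) (pw g ((f ((x, g), (m, p))).1 + 1)),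
      mulc (pw x m) (pw g (f ((x, g), (m, p))).1),
      mulc (pw x m) (pw g ((f ((x, g), (m, p))).1 + 2))), p)).2 ⟨(f ((x, g), (m, p))).2, h2⟩
    exact h3

end Pool.Agent.SD
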