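import Pool.Agent.H.MP_4f19f9_lc.SD.Comp1
import Pool.Agent.H.MP_4f19f9_lc.SD.Search

/-!
# From upper bounds to computability
-/

namespace Pool.Agent.SD

open SimpleGraph Pool.Agent.SC

private theorem Up_ind_pw (c : Code) (n : ℕ) : (gr (pw c n)).indepNum = al (gr c) n := by
  rw [← gi_nm, nm_pw]
  unfold nm
  rw [cl_pow, gi_cl]
  rfl

private theorem Up_theta_pw (c : Code) (n : ℕ) : theta (gr (pw c n)) = theta (gr c) ^ n := by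
  rw [← gT_nm, nm_pw, gT_pow, gT_nm]

private theorem Up_nonneg {f : Code → ℝ} (hf : IsBound f) (c : Code) : 0 ≤ f c :=
  le_trans (Nat.cast_nonneg _) (hf.indep c)

private theorem Up_bound {f : Code → ℝ} (hf : IsBound f) (c : Code) (n : ℕ) :
    f (pw c n) ≤ f onec * f c ^ n := by
  induction n with
  | zero =>
    rw [pow_zero, mul_one]
    exact le_rfl
  | succ n ih =>
    have h1 : f (pw c (n + 1)) ≤ f (pw c n) * f c :=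
      hf.submul (pw c n) c (mulc (pw c n) c) (gr_mulc _ _)
    calc f (pw c (n + 1)) ≤ f (pw c n) * f c := h1
      _ ≤ f onec * f c ^ n * f c := mul_le_mul_of_nonneg_right ih (Up_nonneg hf c)
      _ = f onec * f c ^ (n + 1) := by rw [pow_succ, mul_assoc]

private theorem Up_al_le {f : Code → ℝ} (hf : IsBound f) (c : Code) (n : ℕ) :
    (al (gr c) n : ℝ) ≤ f onec * f c ^ n := by
  rw [← Up_ind_pw]
  exact (hf.indep (pw c n)).trans (Up_bound hf c n)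

/-- A submultiplicative bound is at least the capacity: α(G^n) ≤ f(G^n) ≤ f(1) f(G)^n, and
theta_le_of_const (the case f c = 0 apart: then α = 0, so no vertices). -/
theorem theta_le_bound {f : Code → ℝ} (hf : IsBound f) (c : Code) : theta (gr c) ≤ f c := by
  rcases eq_or_lt_of_le (Up_nonneg hf c) with h | h
  · rw [← h]
    refine theta_le (gr c) le_rfl fun n => ?_
    have h1 := Up_al_le hf c (n + 1)
    rw [← h, zero_pow (Nat.succ_ne_zero n), mul_zero] at h1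
    rw [zero_pow (Nat.succ_ne_zero n)]
    exact h1
  · exact theta_le_of_const (gr c) h (Up_al_le hf c)

/-- R(v^N) < t^N for some N ≥ 1, when t > 1. -/
theorem subpoly_pow {R : ℕ → ℕ} (hR : Subpoly R) (v : ℕ) {t : ℝ} (ht : 1 < t) :
    ∃ N : ℕ, 1 ≤ N ∧ (R (v ^ N) : ℝ) < t ^ N := by
  have hv0 : (0 : ℝ) ≤ v := Nat.cast_nonneg v
  have ht0 : 0 < t := zero_lt_one.trans ht
  obtain ⟨e, he⟩ := pow_unbounded_of_one_lt ((v : ℝ) + 1) ht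
  obtain ⟨C, hC⟩ := hR e
  have hv : (0 : ℝ) < (v : ℝ) + 1 := by positivity
  have hr : 1 < t ^ e / ((v : ℝ) + 1) := (one_lt_div hv).2 he
  obtain ⟨M, hM⟩ := pow_unbounded_of_one_lt (2 * (C : ℝ)) hr
  refine ⟨M + 1, Nat.succ_pos M, ?_⟩
  by_contra hcon
  push Not at hcon
  have h1 : (t ^ (M + 1)) ^ e ≤ (R (v ^ (M + 1)) : ℝ) ^ e :=
    pow_le_pow_left₀ (by positivity) hcon e
  have h2 : (R (v ^ (M + 1)) : ℝ) ^ e ≤ C * ((v : ℝ) ^ (M + 1) + 1) := by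
    exact_mod_cast hC (v ^ (M + 1))
  have h3 : (v : ℝ) ^ (M + 1) + 1 ≤ 2 * ((v : ℝ) + 1) ^ (M + 1) := by
    have a1 : (v : ℝ) ^ (M + 1) ≤ ((v : ℝ) + 1) ^ (M + 1) :=
      pow_le_pow_left₀ hv0 (by linarith) _
    have a2 : (1 : ℝ) ≤ ((v : ℝ) + 1) ^ (M + 1) := one_le_pow₀ (by linarith)
    linarith
  have h4 : 2 * (C : ℝ) < (t ^ e / ((v : ℝ) + 1)) ^ (M + 1) :=
    lt_of_lt_of_le hM (pow_le_pow_right₀ hr.le (Nat.le_succ M))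
  rw [div_pow, lt_div_iff₀ (by positivity)] at h4
  have h5 : (t ^ e) ^ (M + 1) = (t ^ (M + 1)) ^ e := by rw [← pow_mul, ← pow_mul, mul_comm]
  rw [h5] at h4
  have h6 : (C : ℝ) * ((v : ℝ) ^ (M + 1) + 1) ≤ C * (2 * ((v : ℝ) + 1) ^ (M + 1)) :=
    mul_le_mul_of_nonneg_left h3 (Nat.cast_nonneg C)
  have h7 : (C : ℝ) * (2 * ((v : ℝ) + 1) ^ (M + 1)) = 2 * C * ((v : ℝ) + 1) ^ (M + 1) := by ring
  linarith

private theorem Up_conv (x y j a k N : ℕ) :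
    ((x * 2 ^ j + (y + 1)) * 2 ^ ((k + 2) * N) ≤ (a + 2) ^ N * ((y + 1) * 2 ^ j)) ↔
      (x : ℝ) / ((y : ℝ) + 1) + 1 / 2 ^ j ≤ (((a : ℝ) + 2) / 2 ^ (k + 2)) ^ N := by
  have h1 : (x : ℝ) / ((y : ℝ) + 1) + 1 / 2 ^ j =
      ((x : ℝ) * 2 ^ j + ((y : ℝ) + 1)) / (((y : ℝ) + 1) * 2 ^ j) := by
    field_simp
  rw [h1, div_pow, div_le_div_iff₀ (by positivity) (by positivity), ← pow_mul]
  exact_mod_cast Iff.rfl

/-- Certificates exist: with D = 2^(k+2), a lower certificate a/D ≤ Θ from a power and an upper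
certificate Θ ≤ (a+2)/D from a power and one of the bounds. -/
theorem exists_cert {R : ℕ → ℕ} (hR : Subpoly R) {Φ : ℕ → Code → ℝ}
    (hb : ∀ i, IsBound (Φ i)) (hinf : ∀ c, ⨅ i, Φ i c ≤ R c.1 * theta (gr c))
    {f : ℕ × Code × ℕ → ℕ × ℕ} (hf : ∀ (i : ℕ) (c : Code) (k : ℕ),
      |((f (i, c, k)).1 : ℝ) / (((f (i, c, k)).2 : ℝ) + 1) - Φ i c| ≤ 1 / 2 ^ k)
    (c : Code) (k : ℕ) :
    ∃ a n N i j : ℕ, 1 ≤ N ∧ a ^ (n + 1) ≤ (gr (pw c (n + 1))).indepNum * 2 ^ ((k + 2) * (n + 1)) ∧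
      ((f (i, pw c N, j)).1 * 2 ^ j + ((f (i, pw c N, j)).2 + 1)) * 2 ^ ((k + 2) * N) ≤
        (a + 2) ^ N * (((f (i, pw c N, j)).2 + 1) * 2 ^ j) := by
  have hD : (0 : ℝ) < 2 ^ (k + 2) := by positivity
  have hΘ := theta_nonneg (gr c)
  obtain ⟨a, ha1, ha2⟩ : ∃ a : ℕ, (2 : ℝ) ^ (k + 2) * theta (gr c) ≤ (a : ℝ) + 1 ∧
      (a = 0 ∨ (a : ℝ) < 2 ^ (k + 2) * theta (gr c)) := by
    refine ⟨⌈(2 : ℝ) ^ (k + 2) * theta (gr c)⌉₊ - 1, ?_, ?_⟩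
    · have h := Nat.le_ceil ((2 : ℝ) ^ (k + 2) * theta (gr c))
      have h2 : ((⌈(2 : ℝ) ^ (k + 2) * theta (gr c)⌉₊ : ℕ) : ℝ) ≤
          ((⌈(2 : ℝ) ^ (k + 2) * theta (gr c)⌉₊ - 1 : ℕ) : ℝ) + 1 := by
        have h3 : ⌈(2 : ℝ) ^ (k + 2) * theta (gr c)⌉₊ ≤
            (⌈(2 : ℝ) ^ (k + 2) * theta (gr c)⌉₊ - 1) + 1 := by omega
        exact_mod_cast h3
      linarith
    · rcases Nat.eq_zero_or_pos (⌈(2 : ℝ) ^ (k + 2) * theta (gr c)⌉₊ - 1) with h | h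
      · exact Or.inl h
      · exact Or.inr (Nat.lt_ceil.1 (by omega))
  obtain ⟨n, hn⟩ : ∃ n : ℕ, a ^ (n + 1) ≤
      (gr (pw c (n + 1))).indepNum * 2 ^ ((k + 2) * (n + 1)) := by
    rcases ha2 with rfl | h
    · exact ⟨0, by simp⟩
    · have hx : (a : ℝ) / 2 ^ (k + 2) < theta (gr c) := by
        rw [div_lt_iff₀ hD, mul_comm]
        exact h
      obtain ⟨n, hn⟩ := exists_lt_al (gr c) (by positivity) hx
      refine ⟨n, ?_⟩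
      rw [Up_ind_pw]
      rw [div_pow, div_lt_iff₀ (by positivity), ← pow_mul] at hn
      exact_mod_cast hn.le
  have ha0 : (0 : ℝ) ≤ a := Nat.cast_nonneg a
  have ht : 1 < ((a : ℝ) + 2) / ((a : ℝ) + 1) := by
    rw [one_lt_div (by positivity)]
    linarith
  obtain ⟨N, hN, hRN⟩ := subpoly_pow hR c.1 ht
  have hΘ2 : theta (gr c) ≤ ((a : ℝ) + 1) / 2 ^ (k + 2) := by
    rw [le_div_iff₀ hD, mul_comm]
    exact ha1
  have hlt : (⨅ i, Φ i (pw c N)) < (((a : ℝ) + 2) / 2 ^ (k + 2)) ^ N := by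
    refine lt_of_le_of_lt (hinf (pw c N)) ?_
    rw [Up_theta_pw, pw_fst]
    have hp : (0 : ℝ) < (((a : ℝ) + 1) / 2 ^ (k + 2)) ^ N := by positivity
    calc (R (c.1 ^ N) : ℝ) * theta (gr c) ^ N
        ≤ (R (c.1 ^ N) : ℝ) * (((a : ℝ) + 1) / 2 ^ (k + 2)) ^ N :=
          mul_le_mul_of_nonneg_left (pow_le_pow_left₀ hΘ hΘ2 N) (Nat.cast_nonneg _)
      _ < (((a : ℝ) + 2) / ((a : ℝ) + 1)) ^ N * (((a : ℝ) + 1) / 2 ^ (k + 2)) ^ N :=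
          mul_lt_mul_of_pos_right hRN hp
      _ = (((a : ℝ) + 2) / 2 ^ (k + 2)) ^ N := by
          rw [← mul_pow]
          congr 1
          field_simp
  obtain ⟨i, hi⟩ := exists_lt_of_ciInf_lt hlt
  have hgap : 0 < ((((a : ℝ) + 2) / 2 ^ (k + 2)) ^ N - Φ i (pw c N)) / 2 := by linarith
  obtain ⟨j, hj⟩ := exists_pow_lt_of_lt_one hgap (y := (1 / 2 : ℝ)) (by norm_num)
  refine ⟨a, n, N, i, j, hN, hn, (Up_conv _ _ _ _ _ _).2 ?_⟩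
  have h1 := (abs_le.1 (hf i (pw c N) j)).2
  have h2 : (1 : ℝ) / 2 ^ j = (1 / 2) ^ j := by rw [div_pow, one_pow]
  rw [h2] at h1 ⊢
  linarith

/-- Certificates are correct. -/
theorem cert_spec {Φ : ℕ → Code → ℝ} (hb : ∀ i, IsBound (Φ i))
    {f : ℕ × Code × ℕ → ℕ × ℕ} (hf : ∀ (i : ℕ) (c : Code) (k : ℕ),
      |((f (i, c, k)).1 : ℝ) / (((f (i, c, k)).2 : ℝ) + 1) - Φ i c| ≤ 1 / 2 ^ k)
    (c : Code) (k a n N i j : ℕ) (hN : 1 ≤ N)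
    (h1 : a ^ (n + 1) ≤ (gr (pw c (n + 1))).indepNum * 2 ^ ((k + 2) * (n + 1)))
    (h2 : ((f (i, pw c N, j)).1 * 2 ^ j + ((f (i, pw c N, j)).2 + 1)) * 2 ^ ((k + 2) * N) ≤
        (a + 2) ^ N * (((f (i, pw c N, j)).2 + 1) * 2 ^ j)) :
    |(a : ℝ) / (((2 ^ (k + 2) - 1 : ℕ) : ℝ) + 1) - theta (gr c)| ≤ 1 / 2 ^ k := by
  have hD : (0 : ℝ) < 2 ^ (k + 2) := by positivity
  have hΘ := theta_nonneg (gr c)
  have hcast : ((2 ^ (k + 2) - 1 : ℕ) : ℝ) + 1 = 2 ^ (k + 2) := by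
    rw [Nat.cast_sub Nat.one_le_two_pow]
    push_cast
    ring
  have hlow : (a : ℝ) / 2 ^ (k + 2) ≤ theta (gr c) := by
    rw [Up_ind_pw] at h1
    have h3 : (a : ℝ) ^ (n + 1) ≤ (al (gr c) (n + 1) : ℝ) * 2 ^ ((k + 2) * (n + 1)) := by
      exact_mod_cast h1
    have h4 : ((a : ℝ) / 2 ^ (k + 2)) ^ (n + 1) ≤ theta (gr c) ^ (n + 1) := by
      refine le_trans ?_ (al_le_theta (gr c) (n + 1))
      rw [div_pow, div_le_iff₀ (by positivity), ← pow_mul]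
      exact h3
    exact (pow_le_pow_iff_left₀ (by positivity) hΘ (Nat.succ_ne_zero n)).1 h4
  have hup : theta (gr c) ≤ ((a : ℝ) + 2) / 2 ^ (k + 2) := by
    have h3 := (Up_conv _ _ _ _ _ _).1 h2
    have h4 := (abs_le.1 (hf i (pw c N) j)).1
    have h5 := theta_le_bound (hb i) (pw c N)
    rw [Up_theta_pw] at h5
    have h6 : theta (gr c) ^ N ≤ (((a : ℝ) + 2) / 2 ^ (k + 2)) ^ N := by linarith
    exact (pow_le_pow_iff_left₀ hΘ (by positivity) (by omega)).1 h6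
  have h7 : ((a : ℝ) + 2) / 2 ^ (k + 2) = (a : ℝ) / 2 ^ (k + 2) + 1 / 2 * (1 / 2 ^ k) := by
    rw [pow_add]
    field_simp
  have h8 : (0 : ℝ) < 1 / 2 ^ k := by positivity
  rw [hcast, abs_le]
  constructor <;> linarith

private theorem Up_pp : PrimrecPred
    (fun y : (ℕ × ℕ) × ((Code × ℕ) × (ℕ × ℕ × ℕ × ℕ × ℕ)) =>
      1 ≤ y.2.2.2.2.1 ∧
      y.2.2.1 ^ (y.2.2.2.1 + 1) ≤ (gr (pw y.2.1.1 (y.2.2.2.1 + 1))).indepNum *
        2 ^ ((y.2.1.2 + 2) * (y.2.2.2.1 + 1)) ∧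
      (y.1.1 * 2 ^ y.2.2.2.2.2.2 + (y.1.2 + 1)) * 2 ^ ((y.2.1.2 + 2) * y.2.2.2.2.1) ≤
        (y.2.2.1 + 2) ^ y.2.2.2.2.1 * ((y.1.2 + 1) * 2 ^ y.2.2.2.2.2.2)) := by
  have e1 : Primrec (fun y : (ℕ × ℕ) × ((Code × ℕ) × (ℕ × ℕ × ℕ × ℕ × ℕ)) => y.1.1) :=
    Primrec.fst.comp Primrec.fst
  have e2 : Primrec (fun y : (ℕ × ℕ) × ((Code × ℕ) × (ℕ × ℕ × ℕ × ℕ × ℕ)) => y.1.2 + 1) :=
    Primrec.succ.comp (Primrec.snd.comp Primrec.fst)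
  have ec : Primrec (fun y : (ℕ × ℕ) × ((Code × ℕ) × (ℕ × ℕ × ℕ × ℕ × ℕ)) => y.2.1.1) :=
    Primrec.fst.comp (Primrec.fst.comp Primrec.snd)
  have ek : Primrec (fun y : (ℕ × ℕ) × ((Code × ℕ) × (ℕ × ℕ × ℕ × ℕ × ℕ)) => y.2.1.2 + 2) :=
    Primrec.succ.comp (Primrec.succ.comp (Primrec.snd.comp (Primrec.fst.comp Primrec.snd)))
  have ed : Primrec (fun y : (ℕ × ℕ) × ((Code × ℕ) × (ℕ × ℕ × ℕ × ℕ × ℕ)) => y.2.2) :=
    Primrec.snd.comp Primrec.snd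
  have ea : Primrec (fun y : (ℕ × ℕ) × ((Code × ℕ) × (ℕ × ℕ × ℕ × ℕ × ℕ)) => y.2.2.1) :=
    Primrec.fst.comp ed
  have en : Primrec (fun y : (ℕ × ℕ) × ((Code × ℕ) × (ℕ × ℕ × ℕ × ℕ × ℕ)) => y.2.2.2.1 + 1) :=
    Primrec.succ.comp (Primrec.fst.comp (Primrec.snd.comp ed))
  have eN : Primrec (fun y : (ℕ × ℕ) × ((Code × ℕ) × (ℕ × ℕ × ℕ × ℕ × ℕ)) => y.2.2.2.2.1) :=
    Primrec.fst.comp (Primrec.snd.comp (Primrec.snd.comp ed))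
  have ej : Primrec (fun y : (ℕ × ℕ) × ((Code × ℕ) × (ℕ × ℕ × ℕ × ℕ × ℕ)) => y.2.2.2.2.2.2) :=
    Primrec.snd.comp (Primrec.snd.comp (Primrec.snd.comp (Primrec.snd.comp ed)))
  have ej2 : Primrec (fun y : (ℕ × ℕ) × ((Code × ℕ) × (ℕ × ℕ × ℕ × ℕ × ℕ)) =>
      2 ^ y.2.2.2.2.2.2) := pr_pow.comp (Primrec.const 2) ej
  refine PrimrecPred.and (pp_le (Primrec.const 1) eN) (PrimrecPred.and ?_ ?_)
  · exact pp_le (pr_pow.comp ea en) (Primrec.nat_mul.comp (pr_indepNum.comp (pr_pw ec en))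
      (pr_pow.comp (Primrec.const 2) (Primrec.nat_mul.comp ek en)))
  · exact pp_le (Primrec.nat_mul.comp (Primrec.nat_add.comp (Primrec.nat_mul.comp e1 ej2) e2)
      (pr_pow.comp (Primrec.const 2) (Primrec.nat_mul.comp ek eN)))
      (Primrec.nat_mul.comp (pr_pow.comp (Primrec.succ.comp (Primrec.succ.comp ea)) eN)
        (Primrec.nat_mul.comp e2 ej2))

/-- **(4) implies (1).** -/
theorem computable_of_bounds {R : ℕ → ℕ} (hR : Subpoly R) {Φ : ℕ → Code → ℝ}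
    (hΦ : UniformlyComputable Φ) (hb : ∀ i, IsBound (Φ i))
    (hinf : ∀ c, ⨅ i, Φ i c ≤ R c.1 * theta (gr c)) : ThetaComputable := by
  obtain ⟨f, hfc, hf⟩ := hΦ
  have hc : Computable (fun x : (Code × ℕ) × (ℕ × ℕ × ℕ × ℕ × ℕ) =>
      (f (x.2.2.2.2.1, pw x.1.1 x.2.2.2.1, x.2.2.2.2.2), x)) := by
    refine Computable.pair (hfc.comp ?_) Computable.id
    refine Primrec.to_comp ?_
    have e1 : Primrec (fun x : (Code × ℕ) × (ℕ × ℕ × ℕ × ℕ × ℕ) => x.1.1) :=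
      Primrec.fst.comp Primrec.fst
    have eN : Primrec (fun x : (Code × ℕ) × (ℕ × ℕ × ℕ × ℕ × ℕ) => x.2.2.2) :=
      Primrec.snd.comp (Primrec.snd.comp Primrec.snd)
    exact Primrec.pair (Primrec.fst.comp (Primrec.snd.comp eN))
      (Primrec.pair (pr_pw e1 (Primrec.fst.comp eN)) (Primrec.snd.comp (Primrec.snd.comp eN)))
  have hrel := cp_comp Up_pp hc
  obtain ⟨g, hg, hgR⟩ := exists_choice (α := Code × ℕ) (δ := ℕ × ℕ × ℕ × ℕ × ℕ)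
    (R := fun x d => 1 ≤ d.2.2.1 ∧
      d.1 ^ (d.2.1 + 1) ≤ (gr (pw x.1 (d.2.1 + 1))).indepNum * 2 ^ ((x.2 + 2) * (d.2.1 + 1)) ∧
      ((f (d.2.2.2.1, pw x.1 d.2.2.1, d.2.2.2.2)).1 * 2 ^ d.2.2.2.2 +
        ((f (d.2.2.2.1, pw x.1 d.2.2.1, d.2.2.2.2)).2 + 1)) * 2 ^ ((x.2 + 2) * d.2.2.1) ≤
        (d.1 + 2) ^ d.2.2.1 * (((f (d.2.2.2.1, pw x.1 d.2.2.1, d.2.2.2.2)).2 + 1) *
          2 ^ d.2.2.2.2)) hrel (by
    rintro ⟨c, k⟩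
    obtain ⟨a, n, N, i, j, h1, h2, h3⟩ := exists_cert hR hb hinf hf c k
    exact ⟨(a, n, N, i, j), h1, h2, h3⟩)
  refine ⟨fun x => ((g x).1, 2 ^ (x.2 + 2) - 1), ?_, ?_⟩
  · refine Computable.pair (Computable.fst.comp hg) ?_
    refine Primrec.to_comp ?_
    exact Primrec.nat_sub.comp (pr_pow.comp (Primrec.const 2)
      (Primrec.succ.comp (Primrec.succ.comp Primrec.snd))) (Primrec.const 1)
  · intro c k
    obtain ⟨h1, h2, h3⟩ := hgR (c, k)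
    exact cert_spec hb hf c k _ _ _ _ _ h1 h2 h3

end Pool.Agent.SD
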