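import Pool.Agent.H.MP_4f19f9_lc.SD.Eff
import Pool.Agent.H.MP_4f19f9_lc.SD.Up
import Pool.Agent.SC.Sqrt

/-!
# Weak certificates
-/

namespace Pool.Agent.SD

open SimpleGraph Pool.Agent.SC

/-- Points of the spectrum are submultiplicative bounds. -/
theorem IsSpectral.isBound {φ : Code → ℝ} (h : IsSpectral φ) : IsBound φ where
  indep c := by
    rw [← h.edgeless (gr c).indepNum]
    apply h.mono
    obtain ⟨s, hs⟩ := (gr c).exists_isNIndepSet_indepNum
    have e : Fin (gr c).indepNum ≃ s := by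
      rw [← hs.card_eq]
      exact s.equivFin.symm
    refine ⟨fun i => (e i : Fin c.1), fun x y hxy => ?_⟩
    have hne : (e x : Fin c.1) ≠ e y := by
      intro h2
      exact hxy.ne (e.injective (Subtype.ext h2))
    rw [compl_adj]
    exact ⟨hne, hs.isIndepSet (e x).2 (e y).2 hne⟩
  submul c d e hiso := le_of_eq (h.prod c d e hiso)

/-- Strict upper bounds R(v) α from a uniformly computable sequence are recursively
enumerable. -/
theorem re_weak {R : ℕ → ℕ} (hR : Computable R) {Φ : ℕ → Code → ℝ}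
    (hΦ : UniformlyComputable Φ) :
    REPred (fun c : Code => ∃ i, Φ i c < (R c.1 : ℝ) * (gr c).indepNum) := by
  obtain ⟨f, hf, hfa⟩ := hΦ
  have hD : ComputablePred (fun x : Code × ℕ =>
      (f (x.2.unpair.1, x.1, x.2.unpair.2)).1 * 2 ^ x.2.unpair.2 +
        ((f (x.2.unpair.1, x.1, x.2.unpair.2)).2 + 1) <
      R x.1.1 * (gr x.1).indepNum *
        (((f (x.2.unpair.1, x.1, x.2.unpair.2)).2 + 1) * 2 ^ x.2.unpair.2)) := by
    have hp : PrimrecPred (fun y : (ℕ × ℕ) × (ℕ × (ℕ × ℕ)) =>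
        y.1.1 * 2 ^ y.2.1 + (y.1.2 + 1) < y.2.2.1 * y.2.2.2 * ((y.1.2 + 1) * 2 ^ y.2.1)) := by
      have a1 : Primrec (fun y : (ℕ × ℕ) × (ℕ × (ℕ × ℕ)) => y.1.1) :=
        Primrec.fst.comp Primrec.fst
      have a2 : Primrec (fun y : (ℕ × ℕ) × (ℕ × (ℕ × ℕ)) => y.1.2 + 1) :=
        Primrec.succ.comp (Primrec.snd.comp Primrec.fst)
      have a3 : Primrec (fun y : (ℕ × ℕ) × (ℕ × (ℕ × ℕ)) => 2 ^ y.2.1) :=
        pr_pow.comp (Primrec.const 2) (Primrec.fst.comp Primrec.snd)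
      have a4 : Primrec (fun y : (ℕ × ℕ) × (ℕ × (ℕ × ℕ)) => y.2.2.1) :=
        Primrec.fst.comp (Primrec.snd.comp Primrec.snd)
      have a5 : Primrec (fun y : (ℕ × ℕ) × (ℕ × (ℕ × ℕ)) => y.2.2.2) :=
        Primrec.snd.comp (Primrec.snd.comp Primrec.snd)
      exact pp_lt (Primrec.nat_add.comp (Primrec.nat_mul.comp a1 a3) a2)
        (Primrec.nat_mul.comp (Primrec.nat_mul.comp a4 a5) (Primrec.nat_mul.comp a2 a3))
    have hu1 : Primrec (fun x : Code × ℕ => x.2.unpair.1) :=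
      Primrec.fst.comp (Primrec.unpair.comp Primrec.snd)
    have hu2 : Primrec (fun x : Code × ℕ => x.2.unpair.2) :=
      Primrec.snd.comp (Primrec.unpair.comp Primrec.snd)
    have hi : Primrec (fun x : Code × ℕ => (gr x.1).indepNum) := pr_indepNum.comp Primrec.fst
    have hRc : Computable (fun x : Code × ℕ => R x.1.1) :=
      hR.comp (Primrec.fst.comp Primrec.fst).to_comp
    have hfc : Computable (fun x : Code × ℕ => f (x.2.unpair.1, x.1, x.2.unpair.2)) :=
      hf.comp (Primrec.pair hu1 (Primrec.pair Primrec.fst hu2)).to_comp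
    have hc : Computable (fun x : Code × ℕ =>
        (f (x.2.unpair.1, x.1, x.2.unpair.2), (x.2.unpair.2, (R x.1.1, (gr x.1).indepNum)))) :=
      Computable.pair hfc (Computable.pair hu2.to_comp (Computable.pair hRc hi.to_comp))
    exact cp_comp hp hc
  refine (re_exists (D := fun (c : Code) (n : ℕ) =>
      (f (n.unpair.1, c, n.unpair.2)).1 * 2 ^ n.unpair.2 +
        ((f (n.unpair.1, c, n.unpair.2)).2 + 1) <
      R c.1 * (gr c).indepNum *
        (((f (n.unpair.1, c, n.unpair.2)).2 + 1) * 2 ^ n.unpair.2)) hD).of_eq ?_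
  intro c
  have hiff : ∀ i j, ((f (i, c, j)).1 * 2 ^ j + ((f (i, c, j)).2 + 1) <
      R c.1 * (gr c).indepNum * (((f (i, c, j)).2 + 1) * 2 ^ j)) ↔
      ((f (i, c, j)).1 : ℝ) / (((f (i, c, j)).2 : ℝ) + 1) + 1 / 2 ^ j <
        (R c.1 : ℝ) * (gr c).indepNum := by
    intro i j
    have h1 : ((f (i, c, j)).1 : ℝ) / (((f (i, c, j)).2 : ℝ) + 1) + 1 / 2 ^ j =
        (((f (i, c, j)).1 : ℝ) * 2 ^ j + (((f (i, c, j)).2 : ℝ) + 1)) /
          ((((f (i, c, j)).2 : ℝ) + 1) * 2 ^ j) := by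
      field_simp
    rw [h1, div_lt_iff₀ (by positivity)]
    exact_mod_cast Iff.rfl
  constructor
  · rintro ⟨n, hn⟩
    refine ⟨n.unpair.1, ?_⟩
    have h2 := (hiff n.unpair.1 n.unpair.2).1 hn
    have h3 := (abs_le.1 (hfa n.unpair.1 c n.unpair.2)).1
    linarith
  · rintro ⟨i, hi⟩
    obtain ⟨j, hj⟩ := exists_pow_lt_of_lt_one
      (show 0 < ((R c.1 : ℝ) * (gr c).indepNum - Φ i c) / 2 by linarith)
      (show (1 / 2 : ℝ) < 1 by norm_num)
    refine ⟨Nat.pair i j, ?_⟩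
    rw [Nat.unpair_pair]
    refine (hiff i j).2 ?_
    have h3 := (abs_le.1 (hfa i c j)).2
    rw [div_pow, one_pow] at hj
    linarith

/-- Weak certificates on joins suffice. -/
theorem computable_of_weak {R : ℕ → ℕ} (hR : Computable R) (hRs : Subpoly R)
    {Φ : ℕ → Code → ℝ} (hΦ : UniformlyComputable Φ) (hb : ∀ i, IsBound (Φ i))
    (hw : ∀ c : Code, 0 < c.1 → IsCayleyJoin (gr c) → theta (gr c) = (gr c).indepNum →
      ∃ i, Φ i c < (R c.1 : ℝ) * (gr c).indepNum) : ThetaComputable := by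
  refine computable_of_indep hR hRs (re_weak hR hΦ) (fun c hc hC => ⟨fun h => hw c hc hC h, ?_⟩)
  rintro h ⟨i, hi⟩
  have := theta_le_bound (hb i) c
  linarith

end Pool.Agent.SD
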